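import Pool.Agent.N865.JP.Ring

/-! The Jordan algebras `BP p φ τ`. -/

set_option linter.unusedSectionVars false

namespace N865.JP

open ExteriorAlgebra N865.FB

section
variable {F : Type*} [Field F] {U : Type*} [AddCommGroup U] [Module F U]
  {W : Type*} [AddCommGroup W] [Module F W]


/-- truncation to the degrees `1, ..., p - 1` -/
noncomputable def tr (p : ℕ) : (PowerSeries (ExteriorAlgebra F W)) →ₗ[F] (PowerSeries (ExteriorAlgebra F W)) where
  toFun f := PowerSeries.mk fun n => if 1 ≤ n ∧ n < p then PowerSeries.coeff n f else 0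
  map_add' f g := by
    ext n
    rw [map_add, PowerSeries.coeff_mk, PowerSeries.coeff_mk, PowerSeries.coeff_mk, map_add]
    split_ifs <;> simp
  map_smul' r f := by
    ext n
    rw [RingHom.id_apply, PowerSeries.coeff_smul, PowerSeries.coeff_mk, PowerSeries.coeff_mk,
      PowerSeries.coeff_smul]
    split_ifs <;> simp

lemma coeff_tr (p n : ℕ) (f : (PowerSeries (ExteriorAlgebra F W))) : PowerSeries.coeff n (tr p f)
    = if 1 ≤ n ∧ n < p then PowerSeries.coeff n f else 0 := by
  change PowerSeries.coeff n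
    (PowerSeries.mk fun n => if 1 ≤ n ∧ n < p then PowerSeries.coeff n f else 0 : (PowerSeries (ExteriorAlgebra F W))) = _
  rw [PowerSeries.coeff_mk]

/-- constants -/
noncomputable def cst : (ExteriorAlgebra F W) →ₗ[F] (PowerSeries (ExteriorAlgebra F W)) where
  toFun a := PowerSeries.mk fun n => if n = 0 then a else 0
  map_add' f g := by
    ext n
    rw [map_add, PowerSeries.coeff_mk, PowerSeries.coeff_mk, PowerSeries.coeff_mk]
    split_ifs <;> simp
  map_smul' r f := by
    ext n
    rw [RingHom.id_apply, PowerSeries.coeff_smul, PowerSeries.coeff_mk, PowerSeries.coeff_mk]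
    split_ifs <;> simp

lemma coeff_cst (n : ℕ) (a : (ExteriorAlgebra F W)) : PowerSeries.coeff n (cst a) = if n = 0 then a else 0 := by
  change PowerSeries.coeff n (PowerSeries.mk fun n => if n = 0 then a else 0 : (PowerSeries (ExteriorAlgebra F W))) = _
  rw [PowerSeries.coeff_mk]

/-- carrier -/
def BP (_p : ℕ) (_φ : U →ₗ[F] W) (_τ : ExteriorAlgebra F W →ₗ[F] F) : Type _ :=
  U × PowerSeries (ExteriorAlgebra F W) × F

variable (p : ℕ) (φ : U →ₗ[F] W) (τ : ExteriorAlgebra F W →ₗ[F] F)

noncomputable instance : AddCommGroup (BP p φ τ) :=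
  inferInstanceAs (AddCommGroup (U × PowerSeries (ExteriorAlgebra F W) × F))

noncomputable instance : Module F (BP p φ τ) :=
  inferInstanceAs (Module F (U × PowerSeries (ExteriorAlgebra F W) × F))

variable {p φ τ}

/-- build an element -/
def mk (u : U) (f : PowerSeries (ExteriorAlgebra F W)) (c : F) : BP p φ τ := (u, f, c)

/-- components -/
def BP.x (a : BP p φ τ) : U := a.1
def BP.f (a : BP p φ τ) : PowerSeries (ExteriorAlgebra F W) := a.2.1
def BP.c (a : BP p φ τ) : F := a.2.2

lemma BP.ext' {a b : BP p φ τ} (h1 : a.x = b.x) (h2 : a.f = b.f) (h3 : a.c = b.c) : a = b :=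
  Prod.ext h1 (Prod.ext h2 h3)

@[simp] lemma mk_x (u : U) (f : (PowerSeries (ExteriorAlgebra F W))) (c : F) : (mk u f c : BP p φ τ).x = u := rfl
@[simp] lemma mk_f (u : U) (f : (PowerSeries (ExteriorAlgebra F W))) (c : F) : (mk u f c : BP p φ τ).f = f := rfl
@[simp] lemma mk_c (u : U) (f : (PowerSeries (ExteriorAlgebra F W))) (c : F) : (mk u f c : BP p φ τ).c = c := rfl
@[simp] lemma add_x (a b : BP p φ τ) : (a + b).x = a.x + b.x := rfl
@[simp] lemma add_f (a b : BP p φ τ) : (a + b).f = a.f + b.f := rfl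
@[simp] lemma add_c (a b : BP p φ τ) : (a + b).c = a.c + b.c := rfl
@[simp] lemma sub_x (a b : BP p φ τ) : (a - b).x = a.x - b.x := rfl
@[simp] lemma sub_f (a b : BP p φ τ) : (a - b).f = a.f - b.f := rfl
@[simp] lemma sub_c (a b : BP p φ τ) : (a - b).c = a.c - b.c := rfl
@[simp] lemma zero_x : (0 : BP p φ τ).x = 0 := rfl
@[simp] lemma zero_f : (0 : BP p φ τ).f = 0 := rfl
@[simp] lemma zero_c : (0 : BP p φ τ).c = 0 := rfl
@[simp] lemma smul_x (r : F) (a : BP p φ τ) : (r • a).x = r • a.x := rfl
@[simp] lemma smul_f (r : F) (a : BP p φ τ) : (r • a).f = r • a.f := rfl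
@[simp] lemma smul_c (r : F) (a : BP p φ τ) : (r • a).c = r • a.c := rfl

/-- the power series of an element -/
noncomputable def psi (a : BP p φ τ) : (PowerSeries (ExteriorAlgebra F W)) := cst (ι F (φ a.x)) + tr p a.f

lemma psi_add (a b : BP p φ τ) : psi (a + b) = psi a + psi b := by
  unfold psi; simp only [add_x, add_f, map_add]; abel
lemma psi_smul (r : F) (a : BP p φ τ) : psi (r • a) = r • psi a := by
  unfold psi; simp only [smul_x, smul_f, map_smul, smul_add]
lemma psi_zero : psi (0 : BP p φ τ) = 0 := by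
  unfold psi; simp

noncomputable instance : Mul (BP p φ τ) where
  mul a b := mk 0 (tr p (jp (psi a) (psi b))) (τ (PowerSeries.coeff p (jp (psi a) (psi b))))

@[simp] lemma mul_x (a b : BP p φ τ) : (a * b).x = 0 := rfl
@[simp] lemma mul_f (a b : BP p φ τ) : (a * b).f = tr p (jp (psi a) (psi b)) := rfl
@[simp] lemma mul_c (a b : BP p φ τ) :
    (a * b).c = τ (PowerSeries.coeff p (jp (psi a) (psi b))) := rfl

noncomputable instance : NonUnitalNonAssocRing (BP p φ τ) :=
  { (inferInstance : AddCommGroup (BP p φ τ)), (inferInstance : Mul (BP p φ τ)) with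
    left_distrib := by
      intro a b c
      apply BP.ext'
      · simp
      · rw [mul_f, psi_add, jp_add_right, map_add]; rfl
      · rw [mul_c, psi_add, jp_add_right, map_add, map_add]; rfl
    right_distrib := by
      intro a b c
      apply BP.ext'
      · simp
      · rw [mul_f, psi_add, jp_add_left, map_add]; rfl
      · rw [mul_c, psi_add, jp_add_left, map_add, map_add]; rfl
    zero_mul := by
      intro a
      apply BP.ext'
      · simp
      · rw [mul_f, psi_zero, jp_zero_left, map_zero]; rfl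
      · rw [mul_c, psi_zero, jp_zero_left, map_zero, map_zero]; rfl
    mul_zero := by
      intro a
      apply BP.ext'
      · simp
      · rw [mul_f, psi_zero, jp_zero_right, map_zero]; rfl
      · rw [mul_c, psi_zero, jp_zero_right, map_zero, map_zero]; rfl }

instance : IsScalarTower F (BP p φ τ) (BP p φ τ) where
  smul_assoc r a b := by
    change (r • a) * b = r • (a * b)
    apply BP.ext'
    · simp
    · rw [mul_f, psi_smul, jp_smul_left, map_smul]; rfl
    · rw [mul_c, psi_smul, jp_smul_left, PowerSeries.coeff_smul, map_smul]; rfl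

instance : SMulCommClass F (BP p φ τ) (BP p φ τ) where
  smul_comm r a b := by
    change r • (a * b) = a * (r • b)
    apply BP.ext'
    · simp
    · rw [mul_f, psi_smul, jp_smul_right, map_smul]; rfl
    · rw [mul_c, psi_smul, jp_smul_right, PowerSeries.coeff_smul, map_smul]; rfl

lemma bp_comm (a b : BP p φ τ) : a * b = b * a := by
  apply BP.ext'
  · simp
  · rw [mul_f, mul_f, jp_comm]
  · rw [mul_c, mul_c, jp_comm]

lemma coeff_zero_psi (a : BP p φ τ) : PowerSeries.coeff 0 (psi a) = ι F (φ a.x) := by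
  unfold psi
  rw [map_add, coeff_cst, coeff_tr]
  simp

lemma tr_tr (f : (PowerSeries (ExteriorAlgebra F W))) : tr p (tr p f) = tr p f := by
  ext n
  rw [coeff_tr, coeff_tr]
  split_ifs <;> rfl

lemma psi_mul (a b : BP p φ τ) : psi (a * b) = tr p (jp (psi a) (psi b)) := by
  have h : psi (a * b) = cst (ι F (φ (a * b).x)) + tr p (a * b).f := rfl
  rw [h, mul_x, mul_f, map_zero, map_zero, map_zero, zero_add, tr_tr]

lemma coeff_zero_jp (f g : (PowerSeries (ExteriorAlgebra F W))) : PowerSeries.coeff 0 (jp f g)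
    = star 0 0 (PowerSeries.coeff 0 f) (PowerSeries.coeff 0 g) := by
  rw [coeff_jp]
  simp

lemma trA {f : (PowerSeries (ExteriorAlgebra F W))} (hf : PowerSeries.coeff 0 f = 0) (g : (PowerSeries (ExteriorAlgebra F W))) :
    tr p (jp (tr p f) g) = tr p (jp f g) := by
  ext n
  rw [coeff_tr, coeff_tr]
  split_ifs with h
  · rw [coeff_jp, coeff_jp]
    apply Finset.sum_congr rfl
    intro i hi
    have hi' : i.1 + i.2 = n := Finset.HasAntidiagonal.mem_antidiagonal.1 hi
    congr 1
    rw [coeff_tr]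
    by_cases h0 : i.1 = 0
    · rw [h0, hf]; simp
    · rw [if_pos ⟨by omega, by omega⟩]
  · rfl

section
variable (h2 : (2 : F) ≠ 0) (hp : (p : F) = 0) (hτ : ∀ u, τ (sg u) = τ u)

lemma tau_odd (h2 : (2 : F) ≠ 0) (hτ : ∀ u, τ (sg u) = τ u) {u : (ExteriorAlgebra F W)} (hu : sg u = -u) :
    τ u = 0 := by
  have h := hτ u
  rw [hu, map_neg] at h
  have h3 : (2 : F) * τ u = 0 := by linear_combination -h
  rcases mul_eq_zero.1 h3 with h4 | h4
  · exact absurd h4 h2
  · exact h4

include h2 hp hτ in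
lemma trB {f g : (PowerSeries (ExteriorAlgebra F W))} (hf : PowerSeries.coeff 0 f = 0) {x : W} (hg : PowerSeries.coeff 0 g = ι F x) :
    τ (PowerSeries.coeff p (jp (tr p f) g)) = τ (PowerSeries.coeff p (jp f g)) := by
  rw [coeff_jp, coeff_jp, map_sum, map_sum]
  apply Finset.sum_congr rfl
  intro i hi
  have hi' : i.1 + i.2 = p := Finset.HasAntidiagonal.mem_antidiagonal.1 hi
  by_cases h0 : i.1 = 0
  · rw [h0, hf, coeff_tr]; simp
  · by_cases h1 : i.1 = p
    · have h3 : i.2 = 0 := by omega
      have key : ∀ a : (ExteriorAlgebra F W), τ (star (i.1 : F) (i.2 : F) a (PowerSeries.coeff i.2 g)) = 0 := by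
        intro a
        have e1 : ev (ι F x : (ExteriorAlgebra F W)) = 0 := ev_of_odd (sg_ι x)
        have e2 : od (ι F x : (ExteriorAlgebra F W)) = ι F x := od_of_odd h2 (sg_ι x)
        rw [h3, hg, h1, hp]
        unfold star
        rw [e1, e2]
        simp only [mul_zero, zero_add, add_zero, Nat.cast_zero, sub_self, zero_smul]
        apply tau_odd h2 hτ
        rw [map_mul, sg_ev, sg_ι, mul_neg]
      rw [key, key]
    · rw [coeff_tr, if_pos ⟨by omega, by omega⟩]

include h2 hp hτ in
theorem bp_jordan (a b : BP p φ τ) : ((a * a) * b) * a = (a * a) * (b * a) := by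
  have z1 : PowerSeries.coeff 0 (jp (psi a) (psi a)) = 0 := by
    rw [coeff_zero_jp, coeff_zero_psi]
    unfold star
    have e1 : ev (ι F (φ a.x) : (ExteriorAlgebra F W)) = 0 := ev_of_odd (sg_ι _)
    rw [e1]; simp
  have z2 : ∀ f g : (PowerSeries (ExteriorAlgebra F W)), PowerSeries.coeff 0 f = 0 → PowerSeries.coeff 0 (jp f g) = 0 := by
    intro f g hf
    rw [coeff_zero_jp, hf, star_zero_left]
  have z4 : PowerSeries.coeff 0 (jp (psi b) (psi a)) = 0 := by
    rw [coeff_zero_jp, coeff_zero_psi, coeff_zero_psi]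
    unfold star
    have e1 : ev (ι F (φ a.x) : (ExteriorAlgebra F W)) = 0 := ev_of_odd (sg_ι _)
    have e2 : ev (ι F (φ b.x) : (ExteriorAlgebra F W)) = 0 := ev_of_odd (sg_ι _)
    rw [e1, e2]; simp
  have z3 := z2 (jp (psi a) (psi a)) (psi b) z1
  have t0 : ∀ f : (PowerSeries (ExteriorAlgebra F W)), PowerSeries.coeff 0 (tr p f) = ι F (0 : W) := by
    intro f; rw [coeff_tr]; simp
  apply BP.ext'
  · rw [mul_x, mul_x]
  · rw [mul_f, mul_f, psi_mul, psi_mul, psi_mul, trA z1, trA z3, trA z1,
      jp_comm (jp (psi a) (psi a)) (tr p (jp (psi b) (psi a))), trA z4,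
      jp_comm (jp (psi b) (psi a)) (jp (psi a) (psi a)), jp_jordan h2]
  · rw [mul_c, mul_c, psi_mul, psi_mul, psi_mul, trA z1, trB h2 hp hτ z3 (coeff_zero_psi a),
      trB h2 hp hτ z1 (t0 _), jp_comm (jp (psi a) (psi a)) (tr p (jp (psi b) (psi a))),
      trB h2 hp hτ z4 (x := 0) (by rw [z1, map_zero]),
      jp_comm (jp (psi b) (psi a)) (jp (psi a) (psi a)), jp_jordan h2]

end

end

end N865.JP
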