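import Pool.Agent.N865.FB.Ext

/-! Parity decomposition and the level products. -/

set_option linter.unusedSectionVars false

namespace N865.JP

open ExteriorAlgebra N865.FB

section
variable {F : Type*} [Field F] {W : Type*} [AddCommGroup W] [Module F W]


/-- even part -/
noncomputable def ev : (ExteriorAlgebra F W) →ₗ[F] (ExteriorAlgebra F W) := (2⁻¹ : F) • (LinearMap.id + (sg : (ExteriorAlgebra F W) →ₐ[F] (ExteriorAlgebra F W)).toLinearMap)
/-- odd part -/
noncomputable def od : (ExteriorAlgebra F W) →ₗ[F] (ExteriorAlgebra F W) := (2⁻¹ : F) • (LinearMap.id - (sg : (ExteriorAlgebra F W) →ₐ[F] (ExteriorAlgebra F W)).toLinearMap)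

lemma ev_apply (a : (ExteriorAlgebra F W)) : ev a = (2⁻¹ : F) • (a + sg a) := rfl
lemma od_apply (a : (ExteriorAlgebra F W)) : od a = (2⁻¹ : F) • (a - sg a) := rfl

lemma sg_ev (a : (ExteriorAlgebra F W)) : sg (ev a) = ev a := by
  rw [ev_apply, map_smul, map_add, sg_sg, add_comm]

lemma sg_od (a : (ExteriorAlgebra F W)) : sg (od a) = - od a := by
  rw [od_apply, map_smul, map_sub, sg_sg, ← smul_neg]; congr 1; abel

lemma ev_sg (a : (ExteriorAlgebra F W)) : ev (sg a) = ev a := by
  rw [ev_apply, ev_apply, sg_sg, add_comm]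

lemma od_sg (a : (ExteriorAlgebra F W)) : od (sg a) = - od a := by
  rw [od_apply, od_apply, sg_sg, ← smul_neg]; congr 1; abel

lemma ev_comm (a b : (ExteriorAlgebra F W)) : ev a * b = b * ev a := central_of_even (sg_ev a) b

lemma od_anti (a b : (ExteriorAlgebra F W)) : od a * od b = - (od b * od a) := by
  rw [mul_of_odd (sg_od a), sg_od, neg_mul]

/-- level product -/
noncomputable def star (i j : F) (a b : (ExteriorAlgebra F W)) : (ExteriorAlgebra F W) :=
  ev a * ev b + ev a * od b + od a * ev b + (i - j) • (od a * od b)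

lemma star_comm (i j : F) (a b : (ExteriorAlgebra F W)) : star i j a b = star j i b a := by
  unfold star
  rw [ev_comm a (ev b), ev_comm a (od b), ← ev_comm b (od a), od_anti a b, smul_neg, ← neg_smul,
    neg_sub]
  abel

lemma star_add_left (i j : F) (a a' b : (ExteriorAlgebra F W)) : star i j (a + a') b = star i j a b + star i j a' b := by
  unfold star; simp only [map_add, add_mul, smul_add]; abel
lemma star_add_right (i j : F) (a b b' : (ExteriorAlgebra F W)) : star i j a (b + b') = star i j a b + star i j a b' := by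
  unfold star; simp only [map_add, mul_add, smul_add]; abel
lemma star_smul_left (i j r : F) (a b : (ExteriorAlgebra F W)) : star i j (r • a) b = r • star i j a b := by
  unfold star; simp only [map_smul, smul_mul_assoc, smul_add, smul_comm (i - j) r]
lemma star_smul_right (i j r : F) (a b : (ExteriorAlgebra F W)) : star i j a (r • b) = r • star i j a b := by
  unfold star; simp only [map_smul, mul_smul_comm, smul_add, smul_comm (i - j) r]
lemma star_zero_left (i j : F) (b : (ExteriorAlgebra F W)) : star i j 0 b = 0 := by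
  unfold star; simp
lemma star_zero_right (i j : F) (a : (ExteriorAlgebra F W)) : star i j a 0 = 0 := by
  unfold star; simp

lemma ev_mul_even (a : (ExteriorAlgebra F W)) {x : (ExteriorAlgebra F W)} (hx : sg x = x) : ev (a * x) = ev a * x := by
  rw [ev_apply, ev_apply, map_mul, hx, ← add_mul, smul_mul_assoc]
lemma od_mul_even (a : (ExteriorAlgebra F W)) {x : (ExteriorAlgebra F W)} (hx : sg x = x) : od (a * x) = od a * x := by
  rw [od_apply, od_apply, map_mul, hx, ← sub_mul, smul_mul_assoc]

lemma star_mul_even (i j : F) (a b : (ExteriorAlgebra F W)) {x y : (ExteriorAlgebra F W)} (hx : sg x = x) (hy : sg y = y) :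
    star i j (a * x) (b * y) = star i j a b * (x * y) := by
  have key : ∀ u v : (ExteriorAlgebra F W), u * x * (v * y) = u * v * (x * y) := by
    intro u v
    rw [mul_assoc, ← mul_assoc x, central_of_even hx v]; simp only [mul_assoc]
  unfold star
  rw [ev_mul_even a hx, ev_mul_even b hy, od_mul_even a hx, od_mul_even b hy]
  simp only [key, add_mul, smul_mul_assoc]

variable (h2 : (2 : F) ≠ 0)

include h2 in
lemma ev_add_od (a : (ExteriorAlgebra F W)) : ev a + od a = a := by
  rw [ev_apply, od_apply, ← smul_add]
  have : a + sg a + (a - sg a) = (2 : F) • a := by rw [two_smul]; abel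
  rw [this, smul_smul, inv_mul_cancel₀ h2, one_smul]

include h2 in
lemma ev_of_even {a : (ExteriorAlgebra F W)} (ha : sg a = a) : ev a = a := by
  rw [ev_apply, ha, ← two_smul F a, smul_smul, inv_mul_cancel₀ h2, one_smul]

lemma od_of_even {a : (ExteriorAlgebra F W)} (ha : sg a = a) : od a = 0 := by
  rw [od_apply, ha, sub_self, smul_zero]

include h2 in
lemma od_of_odd {a : (ExteriorAlgebra F W)} (ha : sg a = -a) : od a = a := by
  rw [od_apply, ha, sub_neg_eq_add, ← two_smul F a, smul_smul, inv_mul_cancel₀ h2, one_smul]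

lemma ev_of_odd {a : (ExteriorAlgebra F W)} (ha : sg a = -a) : ev a = 0 := by
  rw [ev_apply, ha, add_neg_cancel, smul_zero]

include h2 in
lemma self_neg_zero {a : (ExteriorAlgebra F W)} (h : a = -a) : a = 0 := by
  have : (2 : F) • a = 0 := by
    rw [two_smul]; nth_rewrite 2 [h]; exact add_neg_cancel a
  rcases smul_eq_zero.1 this with h' | h'
  · exact absurd h' h2
  · exact h'

include h2 in
lemma od_sq (a : (ExteriorAlgebra F W)) : od a * od a = 0 := self_neg_zero h2 (od_anti a a)

end

end N865.JP
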