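import Pool.Agent.N865.JP.Power

/-! The cancellation for general odd `p`. -/

set_option linter.unusedSectionVars false

namespace N865.JP

open ExteriorAlgebra N865.FB

section
variable {F : Type*} [Field F] {W : Type*} [AddCommGroup W] [Module F W]


/-- products -/
noncomputable def CP (c : ℕ → (ExteriorAlgebra F W)) : ℕ → (ExteriorAlgebra F W)
  | 0 => 1
  | r + 1 => CP c r * c r

/-- left-normed level product -/
noncomputable def Lr (f : ℕ → (ExteriorAlgebra F W)) : ℕ → (ExteriorAlgebra F W)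
  | 0 => 1
  | r + 1 => star (r : F) 1 (Lr f r) (f r)

lemma sg_CP {c : ℕ → (ExteriorAlgebra F W)} (hc : ∀ t, sg (c t) = c t) (r : ℕ) : sg (CP c r) = CP c r := by
  induction r with
  | zero => simp [CP]
  | succ r ih => rw [CP, map_mul, ih, hc]

lemma CP_congr {c c' : ℕ → (ExteriorAlgebra F W)} (r : ℕ) (h : ∀ t < r, c t = c' t) : CP c r = CP c' r := by
  induction r with
  | zero => rfl
  | succ r ih => rw [CP, CP, ih (fun t ht => h t (Nat.lt_succ_of_lt ht)), h r (Nat.lt_succ_self r)]

lemma CP_update_self (c : ℕ → (ExteriorAlgebra F W)) (d : (ExteriorAlgebra F W)) (r : ℕ) : CP (Function.update c r d) r = CP c r :=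
  CP_congr r fun t ht => Function.update_of_ne ht.ne _ _

lemma CP_kill {c : ℕ → (ExteriorAlgebra F W)} (s : ℕ) (d z : (ExteriorAlgebra F W)) (hz : sg z = z) (h : d * z = 0) (n : ℕ) (hs : s < n) :
    CP (Function.update c s d) n * z = 0 := by
  induction n with
  | zero => exact absurd hs (Nat.not_lt_zero _)
  | succ n ih =>
    rw [CP]
    rcases Nat.lt_succ_iff_lt_or_eq.1 hs with h1 | h1
    · rw [mul_assoc, ← central_of_even hz, ← mul_assoc, ih h1, zero_mul]
    · subst h1
      rw [Function.update_self, mul_assoc, h, mul_zero]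

lemma Lr_formula (a : (ExteriorAlgebra F W)) (b c d : ℕ → (ExteriorAlgebra F W)) (hc : ∀ t, sg (c t) = c t) (hd : ∀ t, sg (d t) = d t)
    (hdd : ∀ s t, s < t → d s * d t = 0) (r : ℕ) :
    Lr (fun t => a * c t + b t * d t) r = Mr a r * CP c r
      + ∑ s ∈ Finset.range r, Tr a (b s) r s * CP (Function.update c s (d s)) r := by
  have hu : ∀ s t, sg (Function.update c s (d s) t) = Function.update c s (d s) t := by
    intro s t
    by_cases h : t = s
    · subst h; rw [Function.update_self]; exact hd t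
    · rw [Function.update_of_ne h]; exact hc t
  induction r with
  | zero => simp [Lr, Mr, CP]
  | succ r ih =>
    rw [Lr, ih, star_add_right, star_add_left, star_add_left, star_sum_left, star_sum_left,
      star_mul_even _ _ _ _ (sg_CP hc r) (hc r), star_mul_even _ _ _ _ (sg_CP hc r) (hd r)]
    have k1 : ∀ s ∈ Finset.range r, star (r : F) 1
        (Tr a (b s) r s * CP (Function.update c s (d s)) r) (b r * d r) = 0 := by
      intro s hs
      rw [star_mul_even _ _ _ _ (sg_CP (hu s) r) (hd r),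
        CP_kill s (d s) (d r) (hd r) (hdd s r (Finset.mem_range.1 hs)) r (Finset.mem_range.1 hs),
        mul_zero]
    rw [Finset.sum_eq_zero k1, add_zero]
    have k2 : ∀ s ∈ Finset.range r, star (r : F) 1
        (Tr a (b s) r s * CP (Function.update c s (d s)) r) (a * c r)
        = Tr a (b s) (r + 1) s * CP (Function.update c s (d s)) (r + 1) := by
      intro s hs
      have hne : r ≠ s := (Finset.mem_range.1 hs).ne'
      rw [star_mul_even _ _ _ _ (sg_CP (hu s) r) (hc r), CP, Function.update_of_ne hne]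
      simp only [Tr, if_neg hne.symm]
    rw [Finset.sum_congr rfl k2, Finset.sum_range_succ, CP, CP, CP_update_self,
      Function.update_self]
    simp only [Tr, if_true, Mr]
    abel

/-- the even factors -/
noncomputable def cc (z : ℕ → W) (e : ℕ → (ExteriorAlgebra F W)) (t : ℕ) : (ExteriorAlgebra F W) :=
  if t = 0 then ι F (z 1) * ι F (z 0) else ι F (z (t + 1)) * e t

/-- the exceptional even factors -/
noncomputable def dd (x : W) (z : ℕ → W) (e : ℕ → (ExteriorAlgebra F W)) (t : ℕ) : (ExteriorAlgebra F W) :=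
  if t = 0 then ι F x * ι F (z 0) else ι F x * e t

lemma update_cc (x : W) (z : ℕ → W) (e : ℕ → (ExteriorAlgebra F W)) (s : ℕ) :
    Function.update (cc z e) s (dd x z e s) = cc (Function.update z (s + 1) x) e := by
  funext t
  by_cases h : t = s
  · subst h
    rw [Function.update_self]
    rcases t with _ | t
    · simp [cc, dd]
    · simp [cc, dd]
  · rw [Function.update_of_ne h]
    rcases t with _ | t
    · have h1 : (1 : ℕ) ≠ s + 1 := by omega
      simp [cc, Function.update_of_ne h1]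
    · have h1 : t + 1 + 1 ≠ s + 1 := by omega
      simp [cc, Function.update_of_ne h1]

lemma sg_cc (z : ℕ → W) (e : ℕ → (ExteriorAlgebra F W)) (he : ∀ t, sg (e t) = - e t) (t : ℕ) :
    sg (cc z e t) = cc z e t := by
  unfold cc; split_ifs <;> simp [he]

lemma sg_dd (x : W) (z : ℕ → W) (e : ℕ → (ExteriorAlgebra F W)) (he : ∀ t, sg (e t) = - e t) (t : ℕ) :
    sg (dd x z e t) = dd x z e t := by
  unfold dd; split_ifs <;> simp [he]

lemma dd_mul (x : W) (z : ℕ → W) (e : ℕ → (ExteriorAlgebra F W)) (s t : ℕ) :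
    dd x z e s * dd x z e t = 0 := by
  have key : ∀ (m : (ExteriorAlgebra F W)) (z : (ExteriorAlgebra F W)), ι F x * m * (ι F x * z) = 0 := by
    intro m z
    rw [ι_mul, mul_assoc, ← mul_assoc (ι F x), ι_sq_zero, zero_mul, mul_zero]
  unfold dd; split_ifs <;> exact key _ _

/-- products of odd elements -/
noncomputable def Hh (e : ℕ → (ExteriorAlgebra F W)) : ℕ → (ExteriorAlgebra F W)
  | 0 => 1
  | n + 1 => Hh e n * e (n + 1)

/-- signs -/
def eps : ℕ → ℤ
  | 0 => -1
  | n + 1 => eps n * (-1) ^ n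

lemma eps_sq (n : ℕ) : eps n * eps n = 1 := by
  induction n with
  | zero => rfl
  | succ n ih =>
    have : eps (n + 1) * eps (n + 1) = (eps n * eps n) * ((-1) ^ n * (-1) ^ n) := by
      simp only [eps]; ring
    rw [this, ih, ← mul_pow]; norm_num

lemma sg_Hh (e : ℕ → (ExteriorAlgebra F W)) (he : ∀ t, sg (e t) = - e t) (n : ℕ) :
    sg (Hh e n) = (-1 : ℤ) ^ n • Hh e n := by
  induction n with
  | zero => simp [Hh]
  | succ n ih =>
    rw [Hh, map_mul, ih, he, pow_succ, mul_neg, smul_mul_assoc]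
    simp

lemma Hh_ι (e : ℕ → (ExteriorAlgebra F W)) (he : ∀ t, sg (e t) = - e t) (n : ℕ) (v : W) :
    Hh e n * ι F v = (-1 : ℤ) ^ n • (ι F v * Hh e n) := by
  have h1 : ι F v * sg (Hh e n) = Hh e n * ι F v := by rw [ι_mul, sg_sg]
  rw [← h1, sg_Hh e he, mul_smul_comm]

/-- product of the first `n` terms of a sequence of vectors -/
noncomputable def PP (s : ℕ → W) : ℕ → (ExteriorAlgebra F W)
  | 0 => 1
  | n + 1 => PP s n * ι F (s n)

lemma PP_eq (s : ℕ → W) (n : ℕ) :
    (PP s n : (ExteriorAlgebra F W)) = ιMulti F n (fun i : Fin n => s i) := by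
  induction n with
  | zero => simp [PP]
  | succ n ih =>
    rw [PP, ih, ιMulti_apply, ιMulti_apply, List.ofFn_succ', List.prod_concat]
    rfl

lemma PP_swap (s : ℕ → W) (n j : ℕ) (hj : j + 1 < n) :
    (PP (s ∘ Equiv.swap 0 (j + 1)) n : (ExteriorAlgebra F W)) = - PP s n := by
  rw [PP_eq, PP_eq]
  have h0 : 0 < n := by omega
  have hne : (⟨0, h0⟩ : Fin n) ≠ ⟨j + 1, hj⟩ := by
    intro h; have := congrArg Fin.val h; simp at this
  rw [← AlternatingMap.map_swap (ιMulti F n) (fun i : Fin n => s i) hne]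
  congr 1
  funext i
  simp only [Function.comp_apply]
  congr 1
  by_cases h1 : i = ⟨0, h0⟩
  · subst h1
    rw [Equiv.swap_apply_left, Equiv.swap_apply_left]
  · by_cases h2 : i = ⟨j + 1, hj⟩
    · subst h2
      rw [Equiv.swap_apply_right, Equiv.swap_apply_right]
    · rw [Equiv.swap_apply_of_ne_of_ne h1 h2, Equiv.swap_apply_of_ne_of_ne]
      · intro h; exact h1 (Fin.ext h)
      · intro h; exact h2 (Fin.ext h)

lemma Q_eq (z : ℕ → W) (e : ℕ → (ExteriorAlgebra F W)) (he : ∀ t, sg (e t) = - e t) (n : ℕ) :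
    CP (cc z e) (n + 1) = eps n • (PP z (n + 2) * Hh e n) := by
  induction n with
  | zero =>
    simp only [CP, cc, PP, Hh, eps, if_true, one_mul, mul_one]
    rw [ι_mul (z 1), sg_ι, neg_mul]
    simp
  | succ n ih =>
    rw [CP, ih, cc, if_neg (Nat.succ_ne_zero n)]
    have : (PP z (n + 1 + 2) : (ExteriorAlgebra F W)) = PP z (n + 2) * ι F (z (n + 2)) := rfl
    rw [this, Hh, eps, smul_mul_assoc, mul_assoc (PP z (n + 2)) (Hh e n),
      ← mul_assoc (Hh e n) (ι F (z (n + 1 + 1))), Hh_ι e he, smul_mul_assoc, mul_smul_comm,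
      smul_smul, mul_assoc (PP z (n + 2)) (ι F (z (n + 2))),
      ← mul_assoc (ι F (z (n + 2))) (Hh e n) (e (n + 1))]

lemma Q_swap (z : ℕ → W) (e : ℕ → (ExteriorAlgebra F W)) (he : ∀ t, sg (e t) = - e t) (n j : ℕ) (hj : j ≤ n) :
    CP (cc (z ∘ Equiv.swap 0 (j + 1)) e) (n + 1) = - CP (cc z e) (n + 1) := by
  rw [Q_eq _ e he, Q_eq _ e he, PP_swap z (n + 2) j (by omega), neg_mul, smul_neg]

/-- the value of one summand -/
noncomputable def Val (a : (ExteriorAlgebra F W)) (x : W) (e : ℕ → (ExteriorAlgebra F W)) (q : ℕ) (z : ℕ → W) (b : ℕ → (ExteriorAlgebra F W)) : (ExteriorAlgebra F W) :=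
  Mr a (q + 1) * CP (cc z e) (q + 1)
    + ∑ s ∈ Finset.range (q + 1),
        Tr a (b (s + 1)) (q + 1) s * CP (cc (Function.update z (s + 1) x) e) (q + 1)

lemma Lr_val (a : (ExteriorAlgebra F W)) (x : W) (e : ℕ → (ExteriorAlgebra F W)) (he : ∀ t, sg (e t) = - e t) (q : ℕ) (z : ℕ → W)
    (b : ℕ → (ExteriorAlgebra F W)) :
    Lr (fun t => a * cc z e t + b (t + 1) * dd x z e t) (q + 1) = Val a x e q z b := by
  rw [Lr_formula a (fun t => b (t + 1)) (cc z e) (dd x z e) (sg_cc z e he) (sg_dd x z e he)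
    (fun s t _ => dd_mul x z e s t)]
  unfold Val
  simp only [update_cc]

lemma comb (a : (ExteriorAlgebra F W)) (x : W) (e : ℕ → (ExteriorAlgebra F W)) (he : ∀ t, sg (e t) = - e t) (q : ℕ)
    (hq : ∀ u : (ExteriorAlgebra F W), (q + 1) • u = 0) (hN : ∀ b : (ExteriorAlgebra F W), Nr a b (q + 1) = 0) (z : ℕ → W) (b : ℕ → (ExteriorAlgebra F W)) :
    Val a x e q z b - ∑ j ∈ Finset.range (q + 1),
        Val a x e q (z ∘ Equiv.swap 0 (j + 1)) (b ∘ Equiv.swap 0 (j + 1))
      = Mr a (q + 1) * CP (cc z e) (q + 1) := by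
  -- the summand attached to position `s` and letter `i`
  set G : ℕ → ℕ → (ExteriorAlgebra F W) := fun s i =>
    Tr a (b i) (q + 1) s * CP (cc (Function.update z i x) e) (q + 1) with hG
  set M0 : (ExteriorAlgebra F W) := Mr a (q + 1) * CP (cc z e) (q + 1) with hM0
  have h1 : Val a x e q z b = M0 + ∑ s ∈ Finset.range (q + 1), G s (s + 1) := rfl
  have h2 : ∀ j ∈ Finset.range (q + 1),
      Val a x e q (z ∘ Equiv.swap 0 (j + 1)) (b ∘ Equiv.swap 0 (j + 1))
        = - M0 - ∑ s ∈ Finset.range (q + 1), G s (Equiv.swap 0 (j + 1) (s + 1)) := by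
    intro j hj
    have hj' : j ≤ q := Nat.lt_succ_iff.1 (Finset.mem_range.1 hj)
    unfold Val
    rw [Q_swap z e he q j hj', mul_neg, ← hM0, sub_eq_add_neg, ← Finset.sum_neg_distrib]
    congr 1
    apply Finset.sum_congr rfl
    intro s _
    have hu : Function.update (z ∘ Equiv.swap 0 (j + 1)) (s + 1) x
        = (Function.update z (Equiv.swap 0 (j + 1) (s + 1)) x) ∘ Equiv.swap 0 (j + 1) := by
      funext t
      by_cases ht : t = s + 1
      · subst ht; simp
      · rw [Function.update_of_ne ht, Function.comp_apply, Function.comp_apply,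
          Function.update_of_ne]
        intro h
        exact ht ((Equiv.swap 0 (j + 1)).injective h)
    rw [hu, Q_swap _ e he q j hj', mul_neg]
    rfl
  rw [h1, Finset.sum_congr rfl h2, Finset.sum_sub_distrib, Finset.sum_const, Finset.card_range,
    smul_neg, hq M0, neg_zero, zero_sub, sub_neg_eq_add, Finset.sum_comm]
  -- count
  have h3 : ∀ s ∈ Finset.range (q + 1),
      ∑ j ∈ Finset.range (q + 1), G s (Equiv.swap 0 (j + 1) (s + 1))
        = G s 0 - G s (s + 1) := by
    intro s hs
    have h4 : ∀ j ∈ Finset.range (q + 1), G s (Equiv.swap 0 (j + 1) (s + 1))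
        = G s (s + 1) + (if j = s then G s 0 - G s (s + 1) else 0) := by
      intro j _
      by_cases hjs : j = s
      · subst hjs
        rw [if_pos rfl, Equiv.swap_apply_right]; abel
      · rw [if_neg hjs, add_zero, Equiv.swap_apply_of_ne_of_ne (Nat.succ_ne_zero s)]
        intro h; exact hjs (by omega)
    rw [Finset.sum_congr rfl h4, Finset.sum_add_distrib, Finset.sum_const, Finset.card_range, hq,
      zero_add, Finset.sum_ite_eq' (Finset.range (q + 1)) s, if_pos hs]
  rw [Finset.sum_congr rfl h3, Finset.sum_sub_distrib]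
  have h5 : ∑ s ∈ Finset.range (q + 1), G s 0 = 0 := by
    simp only [hG]
    rw [← Finset.sum_mul]
    have := hN (b 0)
    unfold Nr at this
    rw [this, zero_mul]
  rw [h5]
  abel

end

end N865.JP
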