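import Pool.Agent.N865.JP.Level
import Pool.Agent.N865.FB.Tau
import Pool.Agent.N865.FB.Main

/-! The identities. -/

set_option linter.unusedSectionVars false

namespace N865.JP

open ExteriorAlgebra N865.FB

universe u

section
variable (F : Type u) [Field F]

/-- the Jordan identity -/
noncomputable def pJord : N865.FB.Poly F :=
  ((X F 0 * X F 0) * X F 1) * X F 0 - (X F 0 * X F 0) * (X F 1 * X F 0)

/-- nilpotency of the square, left-normed form with `p + 1` factors -/
noncomputable def pNil (p : ℕ) : N865.FB.Poly F :=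
  LPG (fun t => X F (2 * t) * X F (2 * t + 1)) p

/-- the long identities -/
noncomputable def pG (q n : ℕ) : N865.FB.Poly F :=
  Phi q n (X F 0) (fun i => X F (i + 1)) (fun t => X F (q + 2 + t)) (fun j => X F (2 * q + 2 + j))
  - ∑ j ∈ Finset.range (q + 1),
    Phi q n (X F 0) (fun i => X F (Equiv.swap 0 (j + 1) i + 1)) (fun t => X F (q + 2 + t))
      (fun j => X F (2 * q + 2 + j))

/-- the system of identities -/
noncomputable def SysP (q : ℕ) : Set (N865.FB.Poly F) :=
  {pComm F, pJord F, pNil F (q + 1)} ∪ {P | ∃ m : ℕ, P = pG F q (2 * m + 1)}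

end

section
variable {F : Type u} [Field F]
variable {A : Type u} [NonUnitalNonAssocRing A] [Module F A] [IsScalarTower F A A]
  [SMulCommClass F A A]

lemma map_tail (v : ℕ → A) (a : N865.FB.Poly F) (u : ℕ → N865.FB.Poly F) (n : ℕ) :
    FB.ev v (tail a u n) = tail (FB.ev v a) (fun j => FB.ev v (u j)) n := by
  induction n with
  | zero => rfl
  | succ n ih => rw [tail, map_mul, ih]; rfl

lemma map_LPG (v : ℕ → A) (f : ℕ → N865.FB.Poly F) (n : ℕ) :
    FB.ev v (LPG f n) = LPG (fun t => FB.ev v (f t)) n := by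
  induction n with
  | zero => rfl
  | succ n ih => rw [LPG, map_mul, ih]; rfl

lemma map_Phi (v : ℕ → A) (q n : ℕ) (y : N865.FB.Poly F) (z w t : ℕ → N865.FB.Poly F) :
    FB.ev v (Phi q n y z w t) = Phi q n (FB.ev v y) (fun i => FB.ev v (z i))
      (fun i => FB.ev v (w i)) (fun i => FB.ev v (t i)) := by
  unfold Phi
  rw [map_LPG]
  congr 1
  funext s
  unfold blkG
  split_ifs
  · rw [map_mul, map_mul]
  · rw [map_tail, map_mul]
  · rw [map_mul, map_mul]

end

section
variable {F : Type u} [Field F] {U : Type u} [AddCommGroup U] [Module F U]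
  {W : Type u} [AddCommGroup W] [Module F W]
  {p : ℕ} {φ : U →ₗ[F] W} {τ : ExteriorAlgebra F W →ₗ[F] F}


lemma mk_sub_c (a b : F) : (mk 0 0 a : BP p φ τ) - mk 0 0 b = mk 0 0 (a - b) := by
  apply BP.ext' <;> simp
lemma mk_sum_c {ι' : Type*} (s : Finset ι') (a : ι' → F) :
    ∑ j ∈ s, (mk 0 0 (a j) : BP p φ τ) = mk 0 0 (∑ j ∈ s, a j) := by
  classical
  induction s using Finset.induction_on with
  | empty => rfl
  | insert b s hb ih =>
    rw [Finset.sum_insert hb, Finset.sum_insert hb, ih]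
    apply BP.ext' <;> simp

/-- the sequence of vectors -/
def sq (v : ℕ → BP p φ τ) : ℕ → W := fun t => φ (v (t + 1)).x

lemma PP_add (s : ℕ → W) (a b : ℕ) :
    (PP s (a + b) : (ExteriorAlgebra F W)) = PP s a * PP (fun j => s (a + j)) b := by
  induction b with
  | zero => simp [PP]
  | succ b ih => rw [← add_assoc, PP, ih, PP, mul_assoc]

lemma Hh_eq (v : ℕ → BP p φ τ) (q n r : ℕ) (hr : r < q) :
    Hh (ee q n (fun t => v (q + 2 + t)) (fun j => v (2 * q + 2 + j))) r
      = PP (fun j => sq v (q + 2 + j)) r := by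
  induction r with
  | zero => rfl
  | succ r ih =>
    rw [Hh, ih (by omega), PP]
    congr 1
    unfold ee
    rw [if_neg (by omega)]
    unfold sq
    congr 3
    

lemma PP_total (v : ℕ → BP p φ τ) {q : ℕ} (hq : 1 ≤ q) (n : ℕ) :
    (PP (sq v) (q + 2) : (ExteriorAlgebra F W)) *
      Hh (ee q n (fun t => v (q + 2 + t)) (fun j => v (2 * q + 2 + j))) q
      = PP (sq v) (2 * q + 1 + n) := by
  obtain ⟨r, rfl⟩ : ∃ r, q = r + 1 := ⟨q - 1, by omega⟩
  rw [Hh, Hh_eq v (r + 1) n r (by omega), ← mul_assoc, ← PP_add]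
  have h1 : 2 * (r + 1) + 1 + n = (r + 1 + 2 + r) + n := by ring
  rw [h1, PP_add _ (r + 1 + 2 + r) n]
  congr 1
  unfold ee
  rw [if_pos rfl]
  congr 1
  funext j
  unfold sq
  congr 3
  ring_nf

lemma pG_val (h2 : (2 : F) ≠ 0) {q : ℕ} (hq : 1 ≤ q) [Fact (q + 1).Prime] [CharP F (q + 1)]
    (hpq : p = q + 1) (v : ℕ → BP p φ τ) (m : ℕ) :
    FB.ev v (pG F q (2 * m + 1)) = mk 0 0 (ep (v 0).m ^ (q + 1) *
      ((eps q : F) * τ (PP (sq v) (2 * q + 1 + (2 * m + 1))))) := by
  have hn : Odd (2 * m + 1) := ⟨m, rfl⟩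
  unfold pG
  rw [map_sub, map_sum, map_Phi]
  simp only [map_Phi, ev_X]
  rw [Phi_val h2 hq hpq hn]
  have h1 : ∀ j ∈ Finset.range (q + 1),
      Phi q (2 * m + 1) (v 0) (fun i => v (Equiv.swap 0 (j + 1) i + 1)) (fun t => v (q + 2 + t))
        (fun j => v (2 * q + 2 + j))
      = mk 0 0 (τ (Val (v 0).m (φ (v 0).x)
          (ee q (2 * m + 1) (fun t => v (q + 2 + t)) (fun j => v (2 * q + 2 + j))) q
          ((fun i => φ (v (i + 1)).x) ∘ Equiv.swap 0 (j + 1))
          ((fun i => (v (i + 1)).m) ∘ Equiv.swap 0 (j + 1)))) := by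
    intro j _
    rw [Phi_val h2 hq hpq hn]
    rfl
  rw [Finset.sum_congr rfl h1, mk_sum_c, mk_sub_c, ← map_sum, ← map_sub]
  rw [comb (v 0).m (φ (v 0).x) _ (sg_ee hn _ _) q]
  · rw [Mr_p h2, ← Algebra.smul_def, map_smul, smul_eq_mul, Q_eq _ _ (sg_ee hn _ _)]
    congr 2
    have := PP_total v hq (2 * m + 1)
    have h3 : (PP (fun i => φ (v (i + 1)).x) (q + 2) : (ExteriorAlgebra F W)) = PP (sq v) (q + 2) := rfl
    rw [h3, this, map_zsmul, zsmul_eq_mul]
  · intro u
    have : ((q + 1 : ℕ) : F) • u = 0 := by rw [CharP.cast_eq_zero, zero_smul]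
    rw [← this, Nat.cast_smul_eq_nsmul]
  · intro b
    exact Nr_p h2 _ _

end

end N865.JP
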