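import Pool.Agent.N865.JP.Alg
import Pool.Agent.N865.JP.Comb

/-! Values of left-normed products of blocks. -/

set_option linter.unusedSectionVars false

namespace N865.JP

open ExteriorAlgebra N865.FB

/-- iterated right multiplication -/
def tail {A : Type*} [Mul A] (a : A) (v : ℕ → A) : ℕ → A
  | 0 => a
  | n + 1 => tail a v n * v n

/-- blocks -/
def blkG {A : Type*} [Mul A] (q n : ℕ) (y : A) (z w v : ℕ → A) (t : ℕ) : A :=
  if t = 0 then (y * z 1) * z 0 else
    if t = q then tail (y * z (q + 1)) v n else (y * z (t + 1)) * w t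

/-- left-normed products of `r + 1` factors -/
def LPG {A : Type*} [Mul A] (f : ℕ → A) : ℕ → A
  | 0 => f 0
  | r + 1 => LPG f r * f (r + 1)

/-- the basic monomial -/
def Phi {A : Type*} [Mul A] (q n : ℕ) (y : A) (z w v : ℕ → A) : A :=
  LPG (blkG q n y z w v) q

section
variable {F : Type*} [Field F] {U : Type*} [AddCommGroup U] [Module F U]
  {W : Type*} [AddCommGroup W] [Module F W]


variable {p : ℕ} {φ : U →ₗ[F] W} {τ : ExteriorAlgebra F W →ₗ[F] F}

/-- first coefficient -/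
noncomputable def BP.m (a : BP p φ τ) : (ExteriorAlgebra F W) := PowerSeries.coeff 1 a.f

lemma coeff_one_psi (hp : 1 < p) (a : BP p φ τ) : PowerSeries.coeff 1 (psi a) = a.m := by
  have h : psi a = cst (ι F (φ a.x)) + tr p a.f := rfl
  rw [h, map_add, coeff_cst, coeff_tr, if_neg one_ne_zero, if_pos ⟨le_rfl, hp⟩, zero_add]
  rfl

lemma coeff_one_jp (f g : (PowerSeries (ExteriorAlgebra F W))) : PowerSeries.coeff 1 (jp f g)
    = star 0 1 (PowerSeries.coeff 0 f) (PowerSeries.coeff 1 g)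
      + star 1 0 (PowerSeries.coeff 1 f) (PowerSeries.coeff 0 g) := by
  rw [coeff_jp]
  simp [Finset.Nat.antidiagonal_succ]

section
variable (h2 : (2 : F) ≠ 0)

include h2 in
lemma ev_sub_od (a : (ExteriorAlgebra F W)) : ev a - od a = sg a := by
  rw [← ev_add_od h2 (sg a), ev_sg, od_sg, sub_eq_add_neg]

include h2 in
lemma mul_m (hp : 1 < p) (a b : BP p φ τ) :
    (a * b).m = a.m * ι F (φ b.x) + b.m * ι F (φ a.x) := by
  have e1 : ∀ x : W, ev (ι F x : (ExteriorAlgebra F W)) = 0 := fun x => ev_of_odd (sg_ι x)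
  have e2 : ∀ x : W, od (ι F x : (ExteriorAlgebra F W)) = ι F x := fun x => od_of_odd h2 (sg_ι x)
  have h : (a * b).m = PowerSeries.coeff 1 (tr p (jp (psi a) (psi b))) := rfl
  rw [h, coeff_tr, if_pos ⟨le_rfl, hp⟩, coeff_one_jp, coeff_zero_psi, coeff_zero_psi,
    coeff_one_psi hp, coeff_one_psi hp]
  have s1 : star 0 1 (ι F (φ a.x)) b.m = b.m * ι F (φ a.x) := by
    unfold star
    rw [e1, e2, zero_mul, zero_mul, zero_add, zero_add, zero_sub, neg_smul, one_smul,
      ← sub_eq_add_neg, ← mul_sub, ev_sub_od h2, ι_mul, sg_sg]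
  have s2 : star 1 0 a.m (ι F (φ b.x)) = a.m * ι F (φ b.x) := by
    unfold star
    rw [e1, e2, mul_zero, mul_zero, add_zero, zero_add, sub_zero, one_smul, ← add_mul,
      ev_add_od h2]
  rw [s1, s2, add_comm]

/-- an element of level at least `r` with leading coefficient `a` -/
def Lev (r : ℕ) (w : BP p φ τ) (a : (ExteriorAlgebra F W)) : Prop :=
  (∀ i < r, PowerSeries.coeff i (psi w) = 0) ∧ PowerSeries.coeff r (psi w) = a

lemma lev_one (hp : 1 < p) {w : BP p φ τ} (hw : w.x = 0) : Lev 1 w w.m := by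
  refine ⟨fun i hi => ?_, coeff_one_psi hp w⟩
  have : i = 0 := by omega
  subst this
  rw [coeff_zero_psi, hw, map_zero, map_zero]

lemma coeff_jp_low {f g : (PowerSeries (ExteriorAlgebra F W))} {i j : ℕ} (hf : ∀ a < i, PowerSeries.coeff a f = 0)
    (hg : ∀ b < j, PowerSeries.coeff b g = 0) {n : ℕ} (hn : n < i + j) :
    PowerSeries.coeff n (jp f g) = 0 := by
  rw [coeff_jp]
  apply Finset.sum_eq_zero
  intro x hx
  have hx' : x.1 + x.2 = n := Finset.HasAntidiagonal.mem_antidiagonal.1 hx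
  by_cases h : x.1 < i
  · rw [hf _ h, star_zero_left]
  · rw [hg _ (by omega), star_zero_right]

lemma coeff_jp_lead {f g : (PowerSeries (ExteriorAlgebra F W))} {i j : ℕ} (hf : ∀ a < i, PowerSeries.coeff a f = 0)
    (hg : ∀ b < j, PowerSeries.coeff b g = 0) :
    PowerSeries.coeff (i + j) (jp f g)
      = star (i : F) (j : F) (PowerSeries.coeff i f) (PowerSeries.coeff j g) := by
  rw [coeff_jp]
  have hmem : (i, j) ∈ Finset.HasAntidiagonal.antidiagonal (i + j) :=
    Finset.HasAntidiagonal.mem_antidiagonal.2 rfl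
  rw [Finset.sum_eq_single_of_mem (i, j) hmem]
  intro x hx hne
  have hx' : x.1 + x.2 = i + j := Finset.HasAntidiagonal.mem_antidiagonal.1 hx
  by_cases h : x.1 < i
  · rw [hf _ h, star_zero_left]
  · by_cases h' : x.2 < j
    · rw [hg _ h', star_zero_right]
    · exfalso
      apply hne
      ext <;> simp only <;> omega

lemma lev_mul {r : ℕ} {w w' : BP p φ τ} {a b : (ExteriorAlgebra F W)} (hw : Lev r w a) (hw' : Lev 1 w' b)
    (hr : r + 1 < p) : Lev (r + 1) (w * w') (star (r : F) 1 a b) := by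
  have hl := coeff_jp_lead hw.1 hw'.1
  rw [hw.2, hw'.2, Nat.cast_one] at hl
  refine ⟨fun i hi => ?_, ?_⟩
  · rw [psi_mul, coeff_tr]
    split_ifs with h
    · exact coeff_jp_low hw.1 hw'.1 hi
    · rfl
  · rw [psi_mul, coeff_tr, if_pos ⟨by omega, hr⟩, hl]

lemma lev_mul_top {r : ℕ} {w w' : BP p φ τ} {a b : (ExteriorAlgebra F W)} (hw : Lev r w a) (hw' : Lev 1 w' b)
    (hr : r + 1 = p) : w * w' = mk 0 0 (τ (star (r : F) 1 a b)) := by
  subst hr
  have hl := coeff_jp_lead hw.1 hw'.1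
  rw [hw.2, hw'.2, Nat.cast_one] at hl
  apply BP.ext'
  · rfl
  · rw [mul_f, mk_f]
    ext n
    rw [coeff_tr, map_zero]
    split_ifs with h
    · exact coeff_jp_low hw.1 hw'.1 (by omega)
    · rfl
  · rw [mul_c, mk_c, hl]

include h2 in
lemma star_one (a : (ExteriorAlgebra F W)) : star 0 1 (1 : (ExteriorAlgebra F W)) a = a := by
  have h1 : sg (1 : (ExteriorAlgebra F W)) = 1 := map_one _
  unfold star
  rw [ev_of_even h2 h1, od_of_even h1, one_mul, one_mul, zero_mul, zero_mul, smul_zero, add_zero,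
    add_zero, ev_add_od h2]

include h2 in
lemma lev_LPG (hp : 1 < p) (f : ℕ → BP p φ τ) (hf : ∀ t, (f t).x = 0) (r : ℕ) (hr : r + 1 < p) :
    Lev (r + 1) (LPG f r) (Lr (fun t => (f t).m) (r + 1)) := by
  induction r with
  | zero =>
    have h : Lr (fun t => (f t).m) (0 + 1) = (f 0).m := by
      change star ((0 : ℕ) : F) 1 (1 : (ExteriorAlgebra F W)) (f 0).m = _
      rw [Nat.cast_zero, star_one h2]
    rw [h]
    exact lev_one hp (hf 0)
  | succ r ih =>
    exact lev_mul (ih (by omega)) (lev_one hp (hf (r + 1))) hr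

include h2 in
lemma LPG_top {q : ℕ} (hq : 1 ≤ q) (hpq : p = q + 1) (f : ℕ → BP p φ τ)
    (hf : ∀ t, (f t).x = 0) :
    LPG f q = mk 0 0 (τ (Lr (fun t => (f t).m) (q + 1))) := by
  obtain ⟨r, rfl⟩ : ∃ r, q = r + 1 := ⟨q - 1, by omega⟩
  exact lev_mul_top (lev_LPG h2 (by omega) f hf r (by omega))
    (lev_one (by omega) (hf (r + 1))) (by omega)

lemma top_mul (c : F) (w : BP p φ τ) : (mk 0 0 c : BP p φ τ) * w = 0 := by
  have h : psi (mk 0 0 c : BP p φ τ) = 0 := by
    have h' : psi (mk 0 0 c : BP p φ τ) = cst (ι F (φ 0)) + tr p (0 : (PowerSeries (ExteriorAlgebra F W))) := rfl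
    rw [h', map_zero, map_zero, map_zero, map_zero, add_zero]
  apply BP.ext'
  · rfl
  · rw [mul_f, h, jp_zero_left, map_zero]; rfl
  · rw [mul_c, h, jp_zero_left, map_zero, map_zero]; rfl

/-- the odd elements attached to the blocks -/
noncomputable def ee (q n : ℕ) (w v : ℕ → BP p φ τ) (t : ℕ) : (ExteriorAlgebra F W) :=
  if t = q then PP (fun j => φ (v j).x) n else ι F (φ (w t).x)

lemma sg_PP (s : ℕ → W) (n : ℕ) : sg (PP s n : (ExteriorAlgebra F W)) = (-1 : ℤ) ^ n • PP s n := by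
  induction n with
  | zero => simp [PP]
  | succ n ih => rw [PP, map_mul, ih, sg_ι, pow_succ, mul_neg, smul_mul_assoc]; simp

lemma sg_ee {q n : ℕ} (hn : Odd n) (w v : ℕ → BP p φ τ) (t : ℕ) :
    sg (ee q n w v t) = - ee q n w v t := by
  unfold ee
  split_ifs
  · rw [sg_PP, hn.neg_one_pow]; simp
  · exact sg_ι _

lemma tail_x {a : BP p φ τ} (ha : a.x = 0) (v : ℕ → BP p φ τ) (n : ℕ) : (tail a v n).x = 0 := by
  cases n with
  | zero => exact ha
  | succ n => rfl

include h2 in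
lemma tail_m (hp : 1 < p) {a : BP p φ τ} (ha : a.x = 0) (v : ℕ → BP p φ τ) (n : ℕ) :
    (tail a v n).m = a.m * PP (fun j => φ (v j).x) n := by
  induction n with
  | zero => simp [tail, PP]
  | succ n ih =>
    rw [tail, mul_m h2 hp, ih, tail_x ha, map_zero, map_zero, mul_zero, add_zero, PP, mul_assoc]

lemma blk_x (q n : ℕ) (y : BP p φ τ) (z w v : ℕ → BP p φ τ) (t : ℕ) :
    (blkG q n y z w v t).x = 0 := by
  unfold blkG
  split_ifs
  · rfl
  · exact tail_x rfl v n
  · rfl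

include h2 in
lemma blk_m (hp : 1 < p) {q : ℕ} (hq : 1 ≤ q) (n : ℕ) (y : BP p φ τ) (z w v : ℕ → BP p φ τ)
    (t : ℕ) :
    (blkG q n y z w v t).m
      = y.m * cc (fun i => φ (z i).x) (ee q n w v) t
        + (z (t + 1)).m * dd (φ y.x) (fun i => φ (z i).x) (ee q n w v) t := by
  unfold blkG cc dd
  split_ifs with h0 h1
  · subst h0
    rw [mul_m h2 hp, mul_m h2 hp, mul_x, map_zero, map_zero, mul_zero, add_zero, add_mul,
      mul_assoc, mul_assoc]
  · subst h1
    rw [tail_m h2 hp rfl, mul_m h2 hp, add_mul, mul_assoc, mul_assoc]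
    simp only [ee, if_true]
  · rw [mul_m h2 hp, mul_m h2 hp, mul_x, map_zero, map_zero, mul_zero, add_zero, add_mul,
      mul_assoc, mul_assoc]
    simp only [ee, if_neg h1]

include h2 in
lemma Phi_val {q : ℕ} (hq : 1 ≤ q) (hpq : p = q + 1) {n : ℕ} (hn : Odd n) (y : BP p φ τ)
    (z w v : ℕ → BP p φ τ) :
    Phi q n y z w v
      = mk 0 0 (τ (Val y.m (φ y.x) (ee q n w v) q (fun i => φ (z i).x) (fun i => (z i).m))) := by
  unfold Phi
  rw [LPG_top h2 hq hpq _ (blk_x q n y z w v)]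
  congr 2
  rw [← Lr_val y.m (φ y.x) (ee q n w v) (sg_ee hn w v) q (fun i => φ (z i).x) (fun i => (z i).m)]
  congr 1
  funext t
  exact blk_m h2 (by omega) hq n y z w v t

end

end

end N865.JP
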