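import Pool.Agent.N865.JP.Ident

/-! The Jordan varieties are not finitely based. -/

set_option linter.unusedSectionVars false

namespace N865.JP

open ExteriorAlgebra N865.FB

universe u

section
variable {F : Type u} [Field F]

lemma two_ne {q : ℕ} (hq : 2 ≤ q) [CharP F (q + 1)] : (2 : F) ≠ 0 := by
  intro h
  have h' : ((2 : ℕ) : F) = 0 := by exact_mod_cast h
  rw [CharP.cast_eq_zero_iff F (q + 1)] at h'
  have := Nat.le_of_dvd (by norm_num) h'
  omega

lemma bp_nil {U W : Type u} [AddCommGroup U] [Module F U] [AddCommGroup W] [Module F W]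
    (h2 : (2 : F) ≠ 0) {q : ℕ} (hq : 1 ≤ q)
    {φ : U →ₗ[F] W} {τ : ExteriorAlgebra F W →ₗ[F] F} (a b : ℕ → BP (q + 1) φ τ) :
    LPG (fun t => a t * b t) (q + 1) = 0 := by
  change LPG (fun t => a t * b t) q * (a (q + 1) * b (q + 1)) = 0
  rw [LPG_top h2 hq rfl (fun t => a t * b t) (fun t => rfl), top_mul]

lemma bp_in {q : ℕ} (hq : 2 ≤ q) [Fact (q + 1).Prime] [CharP F (q + 1)] {k n : ℕ} (hk : Even k)
    (hn : n < k) (φ : (Fin n → F) →ₗ[F] (Fin k → F)) :
    InVariety (SysP F q) (BP (q + 1) φ (tau F k)) := by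
  have h2 : (2 : F) ≠ 0 := two_ne hq
  have hτ : ∀ u, tau F k (sg u) = tau F k u := tau_sg hk
  intro P hP v
  rcases hP with hP | ⟨m, rfl⟩
  · rcases hP with rfl | rfl | rfl
    · change FB.ev v (pComm F) = 0
      simp only [pComm, map_sub, map_mul, ev_X]
      rw [bp_comm, sub_self]
    · change FB.ev v (pJord F) = 0
      simp only [pJord, map_sub, map_mul, ev_X]
      have hp0 : ((q + 1 : ℕ) : F) = 0 := CharP.cast_eq_zero F (q + 1)
      rw [bp_jordan h2 hp0 hτ, sub_self]
    · change FB.ev v (pNil F (q + 1)) = 0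
      unfold pNil
      rw [map_LPG]
      simp only [map_mul, ev_X]
      exact bp_nil h2 (by omega) _ _
  · change FB.ev v (pG F q (2 * m + 1)) = 0
    rw [pG_val h2 (by omega) rfl]
    have : tau F k (PP (sq v) (2 * q + 1 + (2 * m + 1))) = 0 := by
      rw [PP_eq]
      by_cases h : 2 * q + 1 + (2 * m + 1) = k
      · subst h
        rw [tau_ιMulti]
        have hdep : ¬ LinearIndependent F
            (fun i : Fin (2 * q + 1 + (2 * m + 1)) => (v (i + 1)).x) := by
          intro hli
          have := hli.fintype_card_le_finrank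
          simp at this
          omega
        exact (((Pi.basisFun F (Fin (2 * q + 1 + (2 * m + 1)))).det).compLinearMap
          φ).map_linearDependent _ hdep
      · exact tau_ιMulti_ne h _
    rw [this, mul_zero, mul_zero]
    rfl

lemma bp_not {q : ℕ} (hq : 2 ≤ q) [Fact (q + 1).Prime] [CharP F (q + 1)] {m : ℕ} :
    ¬ Holds (pG F q (2 * m + 1))
      (BP (q + 1) (LinearMap.id : (Fin (2 * q + 1 + (2 * m + 1)) → F) →ₗ[F] _)
      (tau F (2 * q + 1 + (2 * m + 1)))) := by
  have h2 : (2 : F) ≠ 0 := two_ne hq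
  set k := 2 * q + 1 + (2 * m + 1) with hk
  intro h
  let v : ℕ → BP (q + 1) (LinearMap.id : (Fin k → F) →ₗ[F] (Fin k → F)) (tau F k) :=
    fun i => if i = 0 then mk 0 (PowerSeries.mk fun _ => 1) 0 else
      if hi : i - 1 < k then mk (Pi.basisFun F (Fin k) ⟨i - 1, hi⟩) 0 0 else 0
  have h1 := h v
  have h2' : FB.ev v (pG F q (2 * m + 1)) = 0 := h1
  rw [pG_val h2 (by omega) rfl] at h2'
  have h3 := congrArg BP.c h2'
  rw [mk_c, zero_c] at h3
  have e0 : (v 0).m = 1 := by
    change PowerSeries.coeff 1 (v 0).f = 1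
    simp [v]
  rw [e0, map_one, one_pow, one_mul, PP_eq, ← hk, tau_ιMulti] at h3
  have e1 : (fun i : Fin k => sq v i) = Pi.basisFun F (Fin k) := by
    funext i
    have : (v (i + 1)).x = Pi.basisFun F (Fin k) i := by
      have hi : (i : ℕ) + 1 - 1 < k := by simp
      simp only [v]
      rw [if_neg (Nat.succ_ne_zero _), dif_pos hi]
      simp
    simp only [sq, this, LinearMap.id_apply]
  rw [e1, Module.Basis.det_self, mul_one] at h3
  have h4 : ((eps q * eps q : ℤ) : F) = 0 := by rw [Int.cast_mul, h3, mul_zero]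
  rw [eps_sq] at h4
  simp at h4

/-- functoriality in `φ` -/
noncomputable def bpMap {p k n : ℕ} (φ : (Fin n → F) →ₗ[F] (Fin k → F)) :
    BP p φ (tau F k) →ₙₐ[F]
      BP p (LinearMap.id : (Fin k → F) →ₗ[F] (Fin k → F)) (tau F k) where
  toFun a := mk (φ a.x) a.f a.c
  map_smul' r a := by apply BP.ext' <;> simp
  map_zero' := by apply BP.ext' <;> simp
  map_add' a b := by apply BP.ext' <;> simp
  map_mul' a b := by
    have h : ∀ c : BP p φ (tau F k), psi (mk (φ c.x) c.f c.c :
        BP p (LinearMap.id : (Fin k → F) →ₗ[F] (Fin k → F)) (tau F k)) = psi c := fun c => rfl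
    apply BP.ext'
    · simp
    · rw [mk_f, mul_f, mul_f, h, h]
    · rw [mk_c, mul_c, mul_c, h, h]

theorem not_fb {q : ℕ} (hq : 2 ≤ q) [Fact (q + 1).Prime] [CharP F (q + 1)] :
    ¬ FinitelyBased (SysP F q) := by
  rintro ⟨T, hT, h⟩
  obtain ⟨n, hn⟩ := exists_bound T hT
  -- choose an even degree larger than `n`
  have hk : Even (2 * q + 1 + (2 * n + 1)) := ⟨q + n + 1, by ring⟩
  have hlt : n < 2 * q + 1 + (2 * n + 1) := by omega
  set k := 2 * q + 1 + (2 * n + 1) with hkdef
  have key : InVariety T (BP (q + 1) (LinearMap.id : (Fin k → F) →ₗ[F] (Fin k → F))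
      (tau F k)) := by
    intro t ht v
    let φ : (Fin n → F) →ₗ[F] (Fin k → F) :=
      Fintype.linearCombination F (fun i : Fin n => (v i).x)
    let v' : ℕ → BP (q + 1) φ (tau F k) := fun i =>
      if hi : i < n then mk (Pi.single ⟨i, hi⟩ 1) (v i).f (v i).c else 0
    have hφ := (h (BP (q + 1) φ (tau F k))).2 (bp_in hq hk hlt φ)
    have h0 : FB.ev v' t = 0 := hφ t ht v'
    have h1 : FB.ev (fun i => bpMap φ (v' i)) t = bpMap φ (FB.ev v' t) := by
      have : (FB.ev (fun i => bpMap φ (v' i)) : N865.FB.Poly F →ₙₐ[F] _)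
          = (bpMap φ).comp (FB.ev v') := by
        apply FreeNonUnitalNonAssocAlgebra.hom_ext
        intro x
        simp [FB.ev]
      rw [this]; rfl
    have h2 : FB.ev v t = FB.ev (fun i => bpMap φ (v' i)) t := by
      apply hn t ht
      intro i hi
      simp only [v', dif_pos hi]
      apply BP.ext'
      · change (v i).x = φ (Pi.single ⟨i, hi⟩ 1)
        simp only [φ, Fintype.linearCombination_apply_single, one_smul]
      · rfl
      · rfl
    change FB.ev v t = 0
    rw [h2, h1, h0, map_zero]
  have := (h _).1 key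
  exact bp_not hq (this (pG F q (2 * n + 1)) (Or.inr ⟨n, rfl⟩))

lemma span_mul_mem {A : Type u} [NonUnitalNonAssocRing A] [Module F A]
    [IsScalarTower F A A] [SMulCommClass F A A] {S T : Set A} {P : Submodule F A}
    (h : ∀ s ∈ S, ∀ t ∈ T, s * t ∈ P) {x y : A} (hx : x ∈ Submodule.span F S)
    (hy : y ∈ Submodule.span F T) : x * y ∈ P := by
  induction hx using Submodule.span_induction with
  | mem x hx =>
    induction hy using Submodule.span_induction with
    | mem y hy => exact h x hx y hy
    | zero => rw [mul_zero]; exact P.zero_mem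
    | add y y' _ _ h1 h2 => rw [mul_add]; exact P.add_mem h1 h2
    | smul c y _ h1 => rw [mul_smul_comm]; exact P.smul_mem _ h1
  | zero => rw [zero_mul]; exact P.zero_mem
  | add x x' _ _ h1 h2 => rw [add_mul]; exact P.add_mem h1 h2
  | smul c x _ h1 => rw [smul_mul_assoc]; exact P.smul_mem _ h1

/-- the algebras of the variety -/
theorem var_props (q : ℕ) (A : Type u) [NonUnitalNonAssocRing A] [Module F A]
    [IsScalarTower F A A] [SMulCommClass F A A] (h : InVariety (SysP F q) A) :
    IsJordan' A ∧ solvSeries F A (q + 2) = ⊥ := by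
  have hcomm : ∀ x y : A, x * y = y * x := by
    intro x y
    have := h (pComm F) (Or.inl (Or.inl rfl)) (fun i => if i = 0 then x else y)
    change FB.ev _ (pComm F) = 0 at this
    simp only [pComm, map_sub, map_mul, ev_X] at this
    simpa [sub_eq_zero] using this
  have hjord : ∀ x y : A, ((x * x) * y) * x = (x * x) * (y * x) := by
    intro x y
    have := h (pJord F) (Or.inl (Or.inr (Or.inl rfl))) (fun i => if i = 0 then x else y)
    change FB.ev _ (pJord F) = 0 at this
    simp only [pJord, map_sub, map_mul, ev_X] at this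
    simpa [sub_eq_zero] using this
  have hnil : ∀ a b : ℕ → A, LPG (fun t => a t * b t) (q + 1) = 0 := by
    intro a b
    have := h (pNil F (q + 1)) (Or.inl (Or.inr (Or.inr rfl)))
      (fun i => if i % 2 = 0 then a (i / 2) else b (i / 2))
    change FB.ev _ (pNil F (q + 1)) = 0 at this
    unfold pNil at this
    rw [map_LPG] at this
    simp only [map_mul, ev_X] at this
    rw [← this]
    congr 1
    funext t
    have e1 : 2 * t % 2 = 0 := by omega
    have e2 : (2 * t + 1) % 2 ≠ 0 := by omega
    have e3 : 2 * t / 2 = t := by omega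
    have e4 : (2 * t + 1) / 2 = t := by omega
    rw [if_pos e1, if_neg e2, e3, e4]
  refine ⟨⟨hcomm, hjord⟩, ?_⟩
  -- the solvable series lies in the span of the left-normed products
  have hLcongr : ∀ (r : ℕ) (f g : ℕ → A), (∀ t ≤ r, f t = g t) → LPG f r = LPG g r := by
    intro r
    induction r with
    | zero => intro f g hfg; exact hfg 0 le_rfl
    | succ r ih =>
      intro f g hfg
      rw [LPG, LPG, ih f g (fun t ht => hfg t (Nat.le_succ_of_le ht)), hfg (r + 1) le_rfl]
  have hsub : ∀ r : ℕ, solvSeries F A (r + 1) ≤ solvSeries F A 1 := by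
    intro r
    rw [solvSeries, solvSeries]
    apply Submodule.span_mono
    rintro z ⟨x, -, y, -, rfl⟩
    exact ⟨x, trivial, y, trivial, rfl⟩
  have hspan : ∀ r : ℕ, solvSeries F A (r + 1) ≤ Submodule.span F
      {z | ∃ a b : ℕ → A, z = LPG (fun t => a t * b t) r} := by
    intro r
    induction r with
    | zero =>
      rw [solvSeries]
      apply Submodule.span_mono
      rintro z ⟨x, -, y, -, rfl⟩
      exact ⟨fun _ => x, fun _ => y, rfl⟩
    | succ r ih =>
      rw [solvSeries, Submodule.span_le]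
      rintro z ⟨x, hx, y, hy, rfl⟩
      have hx' := ih hx
      have hy' := hsub r hy
      rw [solvSeries] at hy'
      refine span_mul_mem ?_ hx' hy'
      rintro _ ⟨a, b, rfl⟩ _ ⟨c, -, d, -, rfl⟩
      apply Submodule.subset_span
      refine ⟨fun t => if t = r + 1 then c else a t, fun t => if t = r + 1 then d else b t, ?_⟩
      rw [LPG]
      congr 1
      · apply hLcongr
        intro t ht
        have : t ≠ r + 1 := by omega
        simp only [if_neg this]
      · simp only [if_true]
  have := hspan (q + 1)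
  rw [eq_bot_iff]
  refine this.trans ?_
  rw [Submodule.span_le]
  rintro z ⟨a, b, rfl⟩
  rw [hnil]
  exact Submodule.zero_mem _

end

end N865.JP
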