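import Pool.Agent.N865.JP.Base

/-! Left-normed powers. -/

set_option linter.unusedSectionVars false

namespace N865.JP

open ExteriorAlgebra N865.FB

section
variable {F : Type*} [Field F] {W : Type*} [AddCommGroup W] [Module F W]


variable (h2 : (2 : F) ≠ 0)

include h2 in
lemma ev_ev (a : (ExteriorAlgebra F W)) : ev (ev a) = ev a := ev_of_even h2 (sg_ev a)
lemma od_ev (a : (ExteriorAlgebra F W)) : od (ev a) = 0 := od_of_even (sg_ev a)
include h2 in
lemma od_od (a : (ExteriorAlgebra F W)) : od (od a) = od a := od_of_odd h2 (sg_od a)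
lemma ev_od (a : (ExteriorAlgebra F W)) : ev (od a) = 0 := ev_of_odd (sg_od a)

include h2 in
lemma ev_star (i j : F) (a b : (ExteriorAlgebra F W)) :
    ev (star i j a b) = ev a * ev b + (i - j) • (od a * od b) := by
  unfold star
  have e1 : ev (ev a * ev b) = ev a * ev b :=
    ev_of_even h2 (by rw [map_mul, sg_ev, sg_ev])
  have e2 : ev (ev a * od b) = 0 := ev_of_odd (by rw [map_mul, sg_ev, sg_od, mul_neg])
  have e3 : ev (od a * ev b) = 0 := ev_of_odd (by rw [map_mul, sg_ev, sg_od, neg_mul])
  have e4 : ev (od a * od b) = od a * od b :=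
    ev_of_even h2 (by rw [map_mul, sg_od, sg_od, neg_mul_neg])
  rw [map_add, map_add, map_add, map_smul, e1, e2, e3, e4, add_zero, add_zero]

include h2 in
lemma od_star (i j : F) (a b : (ExteriorAlgebra F W)) :
    od (star i j a b) = ev a * od b + od a * ev b := by
  unfold star
  have e1 : od (ev a * ev b) = 0 :=
    od_of_even (by rw [map_mul, sg_ev, sg_ev])
  have e2 : od (ev a * od b) = ev a * od b :=
    od_of_odd h2 (by rw [map_mul, sg_ev, sg_od, mul_neg])
  have e3 : od (od a * ev b) = od a * ev b :=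
    od_of_odd h2 (by rw [map_mul, sg_ev, sg_od, neg_mul])
  have e4 : od (od a * od b) = 0 :=
    od_of_even (by rw [map_mul, sg_od, sg_od, neg_mul_neg])
  rw [map_add, map_add, map_add, map_smul, e1, e2, e3, e4, smul_zero, add_zero, zero_add]

/-- left-normed powers -/
noncomputable def Mr (a : (ExteriorAlgebra F W)) : ℕ → (ExteriorAlgebra F W)
  | 0 => 1
  | r + 1 => star (r : F) 1 (Mr a r) a

/-- one factor replaced -/
noncomputable def Tr (a b : (ExteriorAlgebra F W)) : ℕ → ℕ → (ExteriorAlgebra F W)
  | 0, _ => 0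
  | r + 1, s => if s = r then star (r : F) 1 (Mr a r) b else star (r : F) 1 (Tr a b r s) a

/-- the derivative of the power -/
noncomputable def Nr (a b : (ExteriorAlgebra F W)) (r : ℕ) : (ExteriorAlgebra F W) := ∑ s ∈ Finset.range r, Tr a b r s

lemma star_sum_left {ι' : Type*} (i j : F) (s : Finset ι') (f : ι' → (ExteriorAlgebra F W)) (b : (ExteriorAlgebra F W)) :
    star i j (∑ t ∈ s, f t) b = ∑ t ∈ s, star i j (f t) b := by
  classical
  induction s using Finset.induction_on with
  | empty => simp [star_zero_left]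
  | insert a s ha ih => rw [Finset.sum_insert ha, Finset.sum_insert ha, star_add_left, ih]

lemma Nr_succ (a b : (ExteriorAlgebra F W)) (r : ℕ) :
    Nr a b (r + 1) = star (r : F) 1 (Nr a b r) a + star (r : F) 1 (Mr a r) b := by
  unfold Nr
  rw [Finset.sum_range_succ, star_sum_left]
  congr 1
  · apply Finset.sum_congr rfl
    intro s hs
    have : s ≠ r := (Finset.mem_range.1 hs).ne
    simp only [Tr, if_neg this]
  · simp [Tr]

include h2 in
lemma Mr_formula (a : (ExteriorAlgebra F W)) (r : ℕ) :
    ev (Mr a r) = ev a ^ r ∧ od (Mr a r) = (r : F) • (ev a ^ (r - 1) * od a) := by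
  induction r with
  | zero =>
    have h1 : sg (1 : (ExteriorAlgebra F W)) = 1 := map_one _
    simp [Mr, ev_of_even h2 h1, od_of_even h1]
  | succ r ih =>
    obtain ⟨i1, i2⟩ := ih
    constructor
    · rw [Mr, ev_star h2, i1, i2, smul_mul_assoc, mul_assoc, od_sq h2, mul_zero, smul_zero,
        smul_zero, add_zero, pow_succ]
    · rw [Mr, od_star h2, i1, i2, smul_mul_assoc, mul_assoc, ← ev_comm a (od a)]
      rcases r with _ | r
      · simp
      · simp only [Nat.add_sub_cancel, Nat.cast_add, Nat.cast_one]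
        rw [← mul_assoc, ← pow_succ, add_smul ((r : F) + 1), one_smul, add_comm]

include h2 in
lemma Nr_formula (a b : (ExteriorAlgebra F W)) (r : ℕ) :
    ev (Nr a b r) = (r : F) • (ev a ^ (r - 1) * ev b) ∧
    od (Nr a b r) = (r : F) • (ev a ^ (r - 1) * od b)
      + ((r : F) * ((r : F) - 1)) • (ev a ^ (r - 2) * ev b * od a) := by
  induction r with
  | zero => simp [Nr]
  | succ r ih =>
    obtain ⟨i1, i2⟩ := ih
    obtain ⟨m1, m2⟩ := Mr_formula h2 a r
    constructor
    · rw [Nr_succ, map_add, ev_star h2, ev_star h2, i1, i2, m1, m2]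
      have z1 : ev a ^ (r - 2) * ev b * od a * od a = 0 := by
        rw [mul_assoc, od_sq h2, mul_zero]
      have z2 : od b * od a = - (od a * od b) := od_anti b a
      have z3 : ev b * ev a = ev a * ev b := ev_comm b (ev a)
      rw [add_mul, smul_mul_assoc, smul_mul_assoc, smul_mul_assoc, smul_mul_assoc, z1, smul_zero,
        add_zero, mul_assoc (ev a ^ (r - 1)) (od b), z2, mul_assoc (ev a ^ (r - 1)) (od a),
        mul_assoc (ev a ^ (r - 1)) (ev b), z3, mul_neg, smul_neg, smul_neg]
      rcases r with _ | r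
      · simp
      · simp only [Nat.add_sub_cancel, Nat.cast_add, Nat.cast_one]
        have e : ev a ^ r * (ev a * ev b) = ev a ^ (r + 1) * ev b := by
          rw [← mul_assoc, ← pow_succ]
        rw [e, add_smul ((r : F) + 1) 1 (ev a ^ (r + 1) * ev b), one_smul]
        abel
    · rw [Nr_succ, map_add, od_star h2, od_star h2, i1, i2, m1, m2]
      have z2 : od a * ev a = ev a * od a := (ev_comm a (od a)).symm
      have z3 : od b * ev a = ev a * od b := (ev_comm a (od b)).symm
      have z4 : od a * ev b = ev b * od a := (ev_comm b (od a)).symm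
      have z5 : ev b * ev a = ev a * ev b := ev_comm b (ev a)
      simp only [add_mul, smul_mul_assoc, mul_assoc, z2, z3, z4]
      have z6 : ev b * (ev a * od a) = ev a * (ev b * od a) := by
        rw [← mul_assoc, z5, mul_assoc]
      rw [z6]
      rcases r with _ | _ | r
      · simp
      · simp
        module
      · simp only [Nat.add_sub_cancel, Nat.cast_add, Nat.cast_one]
        have e1 : r + 1 + 1 - 2 = r := rfl
        have e2 : r + 1 + 1 + 1 - 2 = r + 1 := rfl
        have e3 : r + 1 + 1 - 1 = r + 1 := rfl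
        rw [e1, e2]
        have p1 : ∀ x : (ExteriorAlgebra F W), ev a ^ r * (ev a * x) = ev a ^ (r + 1) * x := by
          intro x; rw [← mul_assoc, ← pow_succ]
        have p2 : ∀ x : (ExteriorAlgebra F W), ev a ^ (r + 1) * (ev a * x) = ev a ^ (r + 1 + 1) * x := by
          intro x; rw [← mul_assoc, ← pow_succ]
        simp only [p1, p2]
        module

lemma ep_algebraMap' (r : F) : ep (algebraMap F (ExteriorAlgebra F W) r) = r :=
  ExteriorAlgebra.algebraMap_leftInverse W r

lemma ep_ι' (v : W) : ep (ι F v) = 0 := by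
  simp [ep, ExteriorAlgebra.algebraMapInv]

variable {p : ℕ} [CharP F p]

include h2 in
lemma Nr_p (a b : (ExteriorAlgebra F W)) : Nr a b p = 0 := by
  obtain ⟨i1, i2⟩ := Nr_formula h2 a b p
  rw [← ev_add_od h2 (Nr a b p), i1, i2, CharP.cast_eq_zero]
  simp

include h2 in
lemma ev_pow_p [Fact p.Prime] (a : (ExteriorAlgebra F W)) : ev a ^ p = algebraMap F _ (ep a ^ p) := by
  induction a using CliffordAlgebra.left_induction with
  | algebraMap r =>
    change ev (algebraMap F (ExteriorAlgebra F W) r) ^ p = algebraMap F (ExteriorAlgebra F W) (ep (algebraMap F (ExteriorAlgebra F W) r) ^ p)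
    rw [ep_algebraMap', ev_of_even h2 (sg.commutes r), map_pow]
  | add a b ha hb =>
    change ev ((a : (ExteriorAlgebra F W)) + b) ^ p = algebraMap F (ExteriorAlgebra F W) (ep ((a : (ExteriorAlgebra F W)) + b) ^ p)
    have : CharP (ExteriorAlgebra F W) p := charP_of_injective_algebraMap' F p
    rw [map_add, map_add, add_pow_char_of_commute p (show Commute (ev (a : (ExteriorAlgebra F W))) (ev (b : (ExteriorAlgebra F W))) from ev_comm a (ev b)), add_pow_char,
      map_add]
    congr 1
  | ι_mul a m ha =>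
    change ev (ι F m * (a : (ExteriorAlgebra F W))) ^ p = algebraMap F (ExteriorAlgebra F W) (ep (ι F m * (a : (ExteriorAlgebra F W))) ^ p)
    have h1 : ev (ι F m * (a : (ExteriorAlgebra F W))) = ι F m * od (a : (ExteriorAlgebra F W)) := by
      rw [ev_apply, od_apply, map_mul, sg_ι, mul_smul_comm, mul_sub, neg_mul, sub_eq_add_neg]
    have hp : p ≠ 0 := (Fact.out : p.Prime).ne_zero
    have hp1 : 2 ≤ p := (Fact.out : p.Prime).two_le
    have h3 : (ι F m * od (a : (ExteriorAlgebra F W))) ^ 2 = 0 := by
      have : (od (a : (ExteriorAlgebra F W))) * ι F m = -(ι F m * od (a : (ExteriorAlgebra F W))) := by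
        rw [ι_mul, sg_od, neg_mul, neg_neg]
      rw [pow_two, ← mul_assoc, mul_assoc (ι F m), this, mul_neg, ← mul_assoc, ι_sq_zero]
      simp
    rw [h1, map_mul, ep_ι', zero_mul, zero_pow hp, map_zero]
    obtain ⟨k, hk⟩ := Nat.exists_eq_add_of_le hp1
    rw [hk, pow_add, h3, zero_mul]

include h2 in
lemma Mr_p [Fact p.Prime] (a : (ExteriorAlgebra F W)) : Mr a p = algebraMap F _ (ep a ^ p) := by
  obtain ⟨i1, i2⟩ := Mr_formula h2 a p
  rw [← ev_add_od h2 (Mr a p), i1, i2, CharP.cast_eq_zero, zero_smul, add_zero, ev_pow_p h2]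

end

end N865.JP
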