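import Mathlib

/-! The Jordan identity for algebras of vector type, word computation. -/

set_option maxHeartbeats 4000000
set_option linter.unusedVariables false
set_option linter.unusedSimpArgs false

namespace N865.JP

lemma jordan_odd {R : Type*} [Ring R] (a b a1 b1 x2 x1 x y1 y : R) (ca : ∀ u : R, a * u = u * a) (cb : ∀ u : R, b * u = u * b) (ca1 : ∀ u : R, a1 * u = u * a1) (cb1 : ∀ u : R, b1 * u = u * b1) (nx2x1 : x1 * x2 = -(x2 * x1)) (nx2x : x * x2 = -(x2 * x)) (nx2y1 : y1 * x2 = -(x2 * y1)) (nx2y : y * x2 = -(x2 * y)) (nx1x : x * x1 = -(x1 * x)) (nx1y1 : y1 * x1 = -(x1 * y1)) (nx1y : y * x1 = -(x1 * y)) (nxy1 : y1 * x = -(x * y1)) (nxy : y * x = -(x * y)) (ny1y : y * y1 = -(y1 * y)) (sx2 : x2 * x2 = 0) (sx1 : x1 * x1 = 0) (sx : x * x = 0) (sy1 : y1 * y1 = 0) (sy : y * y = 0) :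
    ((a * a + (x1 * x - x * x1)) * b + ((a1 * x + a * x1 + (x1 * a + x * a1)) * y - (a * x + x * a) * y1)) * x + ((a * a + (x1 * x - x * x1)) * y + (a * x + x * a) * b) * a = (a * a + (x1 * x - x * x1)) * (b * x + y * a) + (a * x + x * a) * (b * a + (y1 * x - y * x1)) := by
  have r1 : b * a = a * b := (ca b).symm
  have t1 : ∀ w : R, b * (a * w) = a * (b * w) := fun w => by rw [← mul_assoc, r1, mul_assoc]
  have r2 : a1 * a = a * a1 := (ca a1).symm
  have t2 : ∀ w : R, a1 * (a * w) = a * (a1 * w) := fun w => by rw [← mul_assoc, r2, mul_assoc]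
  have r3 : b1 * a = a * b1 := (ca b1).symm
  have t3 : ∀ w : R, b1 * (a * w) = a * (b1 * w) := fun w => by rw [← mul_assoc, r3, mul_assoc]
  have r4 : x2 * a = a * x2 := (ca x2).symm
  have t4 : ∀ w : R, x2 * (a * w) = a * (x2 * w) := fun w => by rw [← mul_assoc, r4, mul_assoc]
  have r5 : x1 * a = a * x1 := (ca x1).symm
  have t5 : ∀ w : R, x1 * (a * w) = a * (x1 * w) := fun w => by rw [← mul_assoc, r5, mul_assoc]
  have r6 : x * a = a * x := (ca x).symm
  have t6 : ∀ w : R, x * (a * w) = a * (x * w) := fun w => by rw [← mul_assoc, r6, mul_assoc]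
  have r7 : y1 * a = a * y1 := (ca y1).symm
  have t7 : ∀ w : R, y1 * (a * w) = a * (y1 * w) := fun w => by rw [← mul_assoc, r7, mul_assoc]
  have r8 : y * a = a * y := (ca y).symm
  have t8 : ∀ w : R, y * (a * w) = a * (y * w) := fun w => by rw [← mul_assoc, r8, mul_assoc]
  have r9 : a1 * b = b * a1 := (cb a1).symm
  have t9 : ∀ w : R, a1 * (b * w) = b * (a1 * w) := fun w => by rw [← mul_assoc, r9, mul_assoc]
  have r10 : b1 * b = b * b1 := (cb b1).symm
  have t10 : ∀ w : R, b1 * (b * w) = b * (b1 * w) := fun w => by rw [← mul_assoc, r10, mul_assoc]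
  have r11 : x2 * b = b * x2 := (cb x2).symm
  have t11 : ∀ w : R, x2 * (b * w) = b * (x2 * w) := fun w => by rw [← mul_assoc, r11, mul_assoc]
  have r12 : x1 * b = b * x1 := (cb x1).symm
  have t12 : ∀ w : R, x1 * (b * w) = b * (x1 * w) := fun w => by rw [← mul_assoc, r12, mul_assoc]
  have r13 : x * b = b * x := (cb x).symm
  have t13 : ∀ w : R, x * (b * w) = b * (x * w) := fun w => by rw [← mul_assoc, r13, mul_assoc]
  have r14 : y1 * b = b * y1 := (cb y1).symm
  have t14 : ∀ w : R, y1 * (b * w) = b * (y1 * w) := fun w => by rw [← mul_assoc, r14, mul_assoc]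
  have r15 : y * b = b * y := (cb y).symm
  have t15 : ∀ w : R, y * (b * w) = b * (y * w) := fun w => by rw [← mul_assoc, r15, mul_assoc]
  have r16 : b1 * a1 = a1 * b1 := (ca1 b1).symm
  have t16 : ∀ w : R, b1 * (a1 * w) = a1 * (b1 * w) := fun w => by rw [← mul_assoc, r16, mul_assoc]
  have r17 : x2 * a1 = a1 * x2 := (ca1 x2).symm
  have t17 : ∀ w : R, x2 * (a1 * w) = a1 * (x2 * w) := fun w => by rw [← mul_assoc, r17, mul_assoc]
  have r18 : x1 * a1 = a1 * x1 := (ca1 x1).symm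
  have t18 : ∀ w : R, x1 * (a1 * w) = a1 * (x1 * w) := fun w => by rw [← mul_assoc, r18, mul_assoc]
  have r19 : x * a1 = a1 * x := (ca1 x).symm
  have t19 : ∀ w : R, x * (a1 * w) = a1 * (x * w) := fun w => by rw [← mul_assoc, r19, mul_assoc]
  have r20 : y1 * a1 = a1 * y1 := (ca1 y1).symm
  have t20 : ∀ w : R, y1 * (a1 * w) = a1 * (y1 * w) := fun w => by rw [← mul_assoc, r20, mul_assoc]
  have r21 : y * a1 = a1 * y := (ca1 y).symm
  have t21 : ∀ w : R, y * (a1 * w) = a1 * (y * w) := fun w => by rw [← mul_assoc, r21, mul_assoc]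
  have r22 : x2 * b1 = b1 * x2 := (cb1 x2).symm
  have t22 : ∀ w : R, x2 * (b1 * w) = b1 * (x2 * w) := fun w => by rw [← mul_assoc, r22, mul_assoc]
  have r23 : x1 * b1 = b1 * x1 := (cb1 x1).symm
  have t23 : ∀ w : R, x1 * (b1 * w) = b1 * (x1 * w) := fun w => by rw [← mul_assoc, r23, mul_assoc]
  have r24 : x * b1 = b1 * x := (cb1 x).symm
  have t24 : ∀ w : R, x * (b1 * w) = b1 * (x * w) := fun w => by rw [← mul_assoc, r24, mul_assoc]
  have r25 : y1 * b1 = b1 * y1 := (cb1 y1).symm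
  have t25 : ∀ w : R, y1 * (b1 * w) = b1 * (y1 * w) := fun w => by rw [← mul_assoc, r25, mul_assoc]
  have r26 : y * b1 = b1 * y := (cb1 y).symm
  have t26 : ∀ w : R, y * (b1 * w) = b1 * (y * w) := fun w => by rw [← mul_assoc, r26, mul_assoc]
  have r27 : x1 * x2 = -(x2 * x1) := nx2x1
  have t27 : ∀ w : R, x1 * (x2 * w) = -(x2 * (x1 * w)) := fun w => by rw [← mul_assoc, r27, neg_mul, mul_assoc]
  have r28 : x * x2 = -(x2 * x) := nx2x
  have t28 : ∀ w : R, x * (x2 * w) = -(x2 * (x * w)) := fun w => by rw [← mul_assoc, r28, neg_mul, mul_assoc]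
  have r29 : y1 * x2 = -(x2 * y1) := nx2y1
  have t29 : ∀ w : R, y1 * (x2 * w) = -(x2 * (y1 * w)) := fun w => by rw [← mul_assoc, r29, neg_mul, mul_assoc]
  have r30 : y * x2 = -(x2 * y) := nx2y
  have t30 : ∀ w : R, y * (x2 * w) = -(x2 * (y * w)) := fun w => by rw [← mul_assoc, r30, neg_mul, mul_assoc]
  have r31 : x * x1 = -(x1 * x) := nx1x
  have t31 : ∀ w : R, x * (x1 * w) = -(x1 * (x * w)) := fun w => by rw [← mul_assoc, r31, neg_mul, mul_assoc]
  have r32 : y1 * x1 = -(x1 * y1) := nx1y1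
  have t32 : ∀ w : R, y1 * (x1 * w) = -(x1 * (y1 * w)) := fun w => by rw [← mul_assoc, r32, neg_mul, mul_assoc]
  have r33 : y * x1 = -(x1 * y) := nx1y
  have t33 : ∀ w : R, y * (x1 * w) = -(x1 * (y * w)) := fun w => by rw [← mul_assoc, r33, neg_mul, mul_assoc]
  have r34 : y1 * x = -(x * y1) := nxy1
  have t34 : ∀ w : R, y1 * (x * w) = -(x * (y1 * w)) := fun w => by rw [← mul_assoc, r34, neg_mul, mul_assoc]
  have r35 : y * x = -(x * y) := nxy
  have t35 : ∀ w : R, y * (x * w) = -(x * (y * w)) := fun w => by rw [← mul_assoc, r35, neg_mul, mul_assoc]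
  have r36 : y * y1 = -(y1 * y) := ny1y
  have t36 : ∀ w : R, y * (y1 * w) = -(y1 * (y * w)) := fun w => by rw [← mul_assoc, r36, neg_mul, mul_assoc]
  have t37 : ∀ w : R, x2 * (x2 * w) = 0 := fun w => by rw [← mul_assoc, sx2, zero_mul]
  have t38 : ∀ w : R, x1 * (x1 * w) = 0 := fun w => by rw [← mul_assoc, sx1, zero_mul]
  have t39 : ∀ w : R, x * (x * w) = 0 := fun w => by rw [← mul_assoc, sx, zero_mul]
  have t40 : ∀ w : R, y1 * (y1 * w) = 0 := fun w => by rw [← mul_assoc, sy1, zero_mul]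
  have t41 : ∀ w : R, y * (y * w) = 0 := fun w => by rw [← mul_assoc, sy, zero_mul]
  simp only [mul_add, add_mul, mul_sub, sub_mul, mul_neg, neg_mul, mul_assoc, neg_neg, mul_zero, zero_mul, neg_zero, add_zero, zero_add, sub_zero, r1, t1, r2, t2, r3, t3, r4, t4, r5, t5, r6, t6, r7, t7, r8, t8, r9, t9, r10, t10, r11, t11, r12, t12, r13, t13, r14, t14, r15, t15, r16, t16, r17, t17, r18, t18, r19, t19, r20, t20, r21, t21, r22, t22, r23, t23, r24, t24, r25, t25, r26, t26, r27, t27, r28, t28, r29, t29, r30, t30, r31, t31, r32, t32, r33, t33, r34, t34, r35, t35, r36, t36, sx2, t37, sx1, t38, sx, t39, sy1, t40, sy, t41]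
  abel

lemma jordan_even {R : Type*} [Ring R] (a b a1 b1 x2 x1 x y1 y : R) (ca : ∀ u : R, a * u = u * a) (cb : ∀ u : R, b * u = u * b) (ca1 : ∀ u : R, a1 * u = u * a1) (cb1 : ∀ u : R, b1 * u = u * b1) (nx2x1 : x1 * x2 = -(x2 * x1)) (nx2x : x * x2 = -(x2 * x)) (nx2y1 : y1 * x2 = -(x2 * y1)) (nx2y : y * x2 = -(x2 * y)) (nx1x : x * x1 = -(x1 * x)) (nx1y1 : y1 * x1 = -(x1 * y1)) (nx1y : y * x1 = -(x1 * y)) (nxy1 : y1 * x = -(x * y1)) (nxy : y * x = -(x * y)) (ny1y : y * y1 = -(y1 * y)) (sx2 : x2 * x2 = 0) (sx1 : x1 * x1 = 0) (sx : x * x = 0) (sy1 : y1 * y1 = 0) (sy : y * y = 0) :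
    ((a * a + (x1 * x - x * x1)) * b + ((a1 * x + a * x1 + (x1 * a + x * a1)) * y - (a * x + x * a) * y1)) * a + (((a1 * a + a * a1 + ((x2 * x + x1 * x1) - (x1 * x1 + x * x2))) * y + (a * a + (x1 * x - x * x1)) * y1 + ((a1 * x + a * x1 + (x1 * a + x * a1)) * b + (a * x + x * a) * b1)) * x - ((a * a + (x1 * x - x * x1)) * y + (a * x + x * a) * b) * x1) = (a * a + (x1 * x - x * x1)) * (b * a + (y1 * x - y * x1)) + ((a1 * x + a * x1 + (x1 * a + x * a1)) * (b * x + y * a) - (a * x + x * a) * (b1 * x + b * x1 + (y1 * a + y * a1))) := by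
  have r1 : b * a = a * b := (ca b).symm
  have t1 : ∀ w : R, b * (a * w) = a * (b * w) := fun w => by rw [← mul_assoc, r1, mul_assoc]
  have r2 : a1 * a = a * a1 := (ca a1).symm
  have t2 : ∀ w : R, a1 * (a * w) = a * (a1 * w) := fun w => by rw [← mul_assoc, r2, mul_assoc]
  have r3 : b1 * a = a * b1 := (ca b1).symm
  have t3 : ∀ w : R, b1 * (a * w) = a * (b1 * w) := fun w => by rw [← mul_assoc, r3, mul_assoc]
  have r4 : x2 * a = a * x2 := (ca x2).symm
  have t4 : ∀ w : R, x2 * (a * w) = a * (x2 * w) := fun w => by rw [← mul_assoc, r4, mul_assoc]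
  have r5 : x1 * a = a * x1 := (ca x1).symm
  have t5 : ∀ w : R, x1 * (a * w) = a * (x1 * w) := fun w => by rw [← mul_assoc, r5, mul_assoc]
  have r6 : x * a = a * x := (ca x).symm
  have t6 : ∀ w : R, x * (a * w) = a * (x * w) := fun w => by rw [← mul_assoc, r6, mul_assoc]
  have r7 : y1 * a = a * y1 := (ca y1).symm
  have t7 : ∀ w : R, y1 * (a * w) = a * (y1 * w) := fun w => by rw [← mul_assoc, r7, mul_assoc]
  have r8 : y * a = a * y := (ca y).symm
  have t8 : ∀ w : R, y * (a * w) = a * (y * w) := fun w => by rw [← mul_assoc, r8, mul_assoc]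
  have r9 : a1 * b = b * a1 := (cb a1).symm
  have t9 : ∀ w : R, a1 * (b * w) = b * (a1 * w) := fun w => by rw [← mul_assoc, r9, mul_assoc]
  have r10 : b1 * b = b * b1 := (cb b1).symm
  have t10 : ∀ w : R, b1 * (b * w) = b * (b1 * w) := fun w => by rw [← mul_assoc, r10, mul_assoc]
  have r11 : x2 * b = b * x2 := (cb x2).symm
  have t11 : ∀ w : R, x2 * (b * w) = b * (x2 * w) := fun w => by rw [← mul_assoc, r11, mul_assoc]
  have r12 : x1 * b = b * x1 := (cb x1).symm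
  have t12 : ∀ w : R, x1 * (b * w) = b * (x1 * w) := fun w => by rw [← mul_assoc, r12, mul_assoc]
  have r13 : x * b = b * x := (cb x).symm
  have t13 : ∀ w : R, x * (b * w) = b * (x * w) := fun w => by rw [← mul_assoc, r13, mul_assoc]
  have r14 : y1 * b = b * y1 := (cb y1).symm
  have t14 : ∀ w : R, y1 * (b * w) = b * (y1 * w) := fun w => by rw [← mul_assoc, r14, mul_assoc]
  have r15 : y * b = b * y := (cb y).symm
  have t15 : ∀ w : R, y * (b * w) = b * (y * w) := fun w => by rw [← mul_assoc, r15, mul_assoc]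
  have r16 : b1 * a1 = a1 * b1 := (ca1 b1).symm
  have t16 : ∀ w : R, b1 * (a1 * w) = a1 * (b1 * w) := fun w => by rw [← mul_assoc, r16, mul_assoc]
  have r17 : x2 * a1 = a1 * x2 := (ca1 x2).symm
  have t17 : ∀ w : R, x2 * (a1 * w) = a1 * (x2 * w) := fun w => by rw [← mul_assoc, r17, mul_assoc]
  have r18 : x1 * a1 = a1 * x1 := (ca1 x1).symm
  have t18 : ∀ w : R, x1 * (a1 * w) = a1 * (x1 * w) := fun w => by rw [← mul_assoc, r18, mul_assoc]
  have r19 : x * a1 = a1 * x := (ca1 x).symm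
  have t19 : ∀ w : R, x * (a1 * w) = a1 * (x * w) := fun w => by rw [← mul_assoc, r19, mul_assoc]
  have r20 : y1 * a1 = a1 * y1 := (ca1 y1).symm
  have t20 : ∀ w : R, y1 * (a1 * w) = a1 * (y1 * w) := fun w => by rw [← mul_assoc, r20, mul_assoc]
  have r21 : y * a1 = a1 * y := (ca1 y).symm
  have t21 : ∀ w : R, y * (a1 * w) = a1 * (y * w) := fun w => by rw [← mul_assoc, r21, mul_assoc]
  have r22 : x2 * b1 = b1 * x2 := (cb1 x2).symm
  have t22 : ∀ w : R, x2 * (b1 * w) = b1 * (x2 * w) := fun w => by rw [← mul_assoc, r22, mul_assoc]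
  have r23 : x1 * b1 = b1 * x1 := (cb1 x1).symm
  have t23 : ∀ w : R, x1 * (b1 * w) = b1 * (x1 * w) := fun w => by rw [← mul_assoc, r23, mul_assoc]
  have r24 : x * b1 = b1 * x := (cb1 x).symm
  have t24 : ∀ w : R, x * (b1 * w) = b1 * (x * w) := fun w => by rw [← mul_assoc, r24, mul_assoc]
  have r25 : y1 * b1 = b1 * y1 := (cb1 y1).symm
  have t25 : ∀ w : R, y1 * (b1 * w) = b1 * (y1 * w) := fun w => by rw [← mul_assoc, r25, mul_assoc]
  have r26 : y * b1 = b1 * y := (cb1 y).symm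
  have t26 : ∀ w : R, y * (b1 * w) = b1 * (y * w) := fun w => by rw [← mul_assoc, r26, mul_assoc]
  have r27 : x1 * x2 = -(x2 * x1) := nx2x1
  have t27 : ∀ w : R, x1 * (x2 * w) = -(x2 * (x1 * w)) := fun w => by rw [← mul_assoc, r27, neg_mul, mul_assoc]
  have r28 : x * x2 = -(x2 * x) := nx2x
  have t28 : ∀ w : R, x * (x2 * w) = -(x2 * (x * w)) := fun w => by rw [← mul_assoc, r28, neg_mul, mul_assoc]
  have r29 : y1 * x2 = -(x2 * y1) := nx2y1
  have t29 : ∀ w : R, y1 * (x2 * w) = -(x2 * (y1 * w)) := fun w => by rw [← mul_assoc, r29, neg_mul, mul_assoc]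
  have r30 : y * x2 = -(x2 * y) := nx2y
  have t30 : ∀ w : R, y * (x2 * w) = -(x2 * (y * w)) := fun w => by rw [← mul_assoc, r30, neg_mul, mul_assoc]
  have r31 : x * x1 = -(x1 * x) := nx1x
  have t31 : ∀ w : R, x * (x1 * w) = -(x1 * (x * w)) := fun w => by rw [← mul_assoc, r31, neg_mul, mul_assoc]
  have r32 : y1 * x1 = -(x1 * y1) := nx1y1
  have t32 : ∀ w : R, y1 * (x1 * w) = -(x1 * (y1 * w)) := fun w => by rw [← mul_assoc, r32, neg_mul, mul_assoc]
  have r33 : y * x1 = -(x1 * y) := nx1y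
  have t33 : ∀ w : R, y * (x1 * w) = -(x1 * (y * w)) := fun w => by rw [← mul_assoc, r33, neg_mul, mul_assoc]
  have r34 : y1 * x = -(x * y1) := nxy1
  have t34 : ∀ w : R, y1 * (x * w) = -(x * (y1 * w)) := fun w => by rw [← mul_assoc, r34, neg_mul, mul_assoc]
  have r35 : y * x = -(x * y) := nxy
  have t35 : ∀ w : R, y * (x * w) = -(x * (y * w)) := fun w => by rw [← mul_assoc, r35, neg_mul, mul_assoc]
  have r36 : y * y1 = -(y1 * y) := ny1y
  have t36 : ∀ w : R, y * (y1 * w) = -(y1 * (y * w)) := fun w => by rw [← mul_assoc, r36, neg_mul, mul_assoc]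
  have t37 : ∀ w : R, x2 * (x2 * w) = 0 := fun w => by rw [← mul_assoc, sx2, zero_mul]
  have t38 : ∀ w : R, x1 * (x1 * w) = 0 := fun w => by rw [← mul_assoc, sx1, zero_mul]
  have t39 : ∀ w : R, x * (x * w) = 0 := fun w => by rw [← mul_assoc, sx, zero_mul]
  have t40 : ∀ w : R, y1 * (y1 * w) = 0 := fun w => by rw [← mul_assoc, sy1, zero_mul]
  have t41 : ∀ w : R, y * (y * w) = 0 := fun w => by rw [← mul_assoc, sy, zero_mul]
  simp only [mul_add, add_mul, mul_sub, sub_mul, mul_neg, neg_mul, mul_assoc, neg_neg, mul_zero, zero_mul, neg_zero, add_zero, zero_add, sub_zero, r1, t1, r2, t2, r3, t3, r4, t4, r5, t5, r6, t6, r7, t7, r8, t8, r9, t9, r10, t10, r11, t11, r12, t12, r13, t13, r14, t14, r15, t15, r16, t16, r17, t17, r18, t18, r19, t19, r20, t20, r21, t21, r22, t22, r23, t23, r24, t24, r25, t25, r26, t26, r27, t27, r28, t28, r29, t29, r30, t30, r31, t31, r32, t32, r33, t33, r34, t34, r35, t35, r36, t36, sx2, t37, sx1, t38, sx,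 t39, sy1, t40, sy, t41]
  abel

/-- abstract product of vector type -/
def jpA {R : Type*} [Ring R] (e o D : R → R) (f g : R) : R :=
  e f * e g + e f * o g + o f * e g + (D (o f) * o g - o f * D (o g))

/-- abstract Jordan identity -/
theorem jordan_abs {R : Type*} [Ring R] (e o D : R → R)
    (hDadd : ∀ f g, D (f + g) = D f + D g) (hDsub : ∀ f g, D (f - g) = D f - D g)
    (hDmul : ∀ f g, D (f * g) = D f * g + f * D g)
    (heo : ∀ f, e f + o f = f)
    (hej : ∀ f g, e (jpA e o D f g) = e f * e g + (D (o f) * o g - o f * D (o g)))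
    (hoj : ∀ f g, o (jpA e o D f g) = e f * o g + o f * e g)
    (P : R → Prop) (he : ∀ f u, e f * u = u * e f) (hDe : ∀ f u, D (e f) * u = u * D (e f))
    (hP : ∀ f, P (o f)) (hDP : ∀ f, P f → P (D f))
    (hanti : ∀ u v, P u → P v → u * v = -(v * u)) (hsq : ∀ u, P u → u * u = 0) (f g : R) :
    jpA e o D (jpA e o D (jpA e o D f f) g) f = jpA e o D (jpA e o D f f) (jpA e o D g f) := by
  have ox := hP f
  have ox1 := hDP _ ox
  have ox2 := hDP _ ox1
  have oy := hP g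
  have oy1 := hDP _ oy
  have hodd := jordan_odd (e f) (e g) (D (e f)) (D (e g)) (D (D (o f))) (D (o f)) (o f)
    (D (o g)) (o g) (he f) (he g) (hDe f) (hDe g)
    (hanti _ _ ox1 ox2) (hanti _ _ ox ox2) (hanti _ _ oy1 ox2) (hanti _ _ oy ox2)
    (hanti _ _ ox ox1) (hanti _ _ oy1 ox1) (hanti _ _ oy ox1)
    (hanti _ _ oy1 ox) (hanti _ _ oy ox) (hanti _ _ oy oy1)
    (hsq _ ox2) (hsq _ ox1) (hsq _ ox) (hsq _ oy1) (hsq _ oy)
  have heven := jordan_even (e f) (e g) (D (e f)) (D (e g)) (D (D (o f))) (D (o f)) (o f)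
    (D (o g)) (o g) (he f) (he g) (hDe f) (hDe g)
    (hanti _ _ ox1 ox2) (hanti _ _ ox ox2) (hanti _ _ oy1 ox2) (hanti _ _ oy ox2)
    (hanti _ _ ox ox1) (hanti _ _ oy1 ox1) (hanti _ _ oy ox1)
    (hanti _ _ oy1 ox) (hanti _ _ oy ox) (hanti _ _ oy oy1)
    (hsq _ ox2) (hsq _ ox1) (hsq _ ox) (hsq _ oy1) (hsq _ oy)
  rw [← heo (jpA e o D (jpA e o D (jpA e o D f f) g) f),
    ← heo (jpA e o D (jpA e o D f f) (jpA e o D g f))]
  congr 1
  · simp only [hej, hoj, hDadd, hDsub, hDmul]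
    exact heven
  · simp only [hej, hoj, hDadd, hDsub, hDmul]
    exact hodd

end N865.JP
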