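import Pool.Agent.N865.JP.Base
import Pool.Agent.N865.JP.Words

/-! The Jordan algebra of vector type on power series over the exterior algebra. -/

set_option linter.unusedSectionVars false

namespace N865.JP

open ExteriorAlgebra N865.FB

section
variable {F : Type*} [Field F] {W : Type*} [AddCommGroup W] [Module F W]


/-- a power series is even -/
def IsEv (f : (PowerSeries (ExteriorAlgebra F W))) : Prop := ∀ n, sg (PowerSeries.coeff n f) = PowerSeries.coeff n f
/-- a power series is odd -/
def IsOd (f : (PowerSeries (ExteriorAlgebra F W))) : Prop := ∀ n, sg (PowerSeries.coeff n f) = - PowerSeries.coeff n f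

lemma IsEv.central {c : (PowerSeries (ExteriorAlgebra F W))} (hc : IsEv c) (g : (PowerSeries (ExteriorAlgebra F W))) : c * g = g * c := by
  ext n
  rw [PowerSeries.coeff_mul, PowerSeries.coeff_mul,
    ← Finset.Nat.sum_antidiagonal_swap]
  apply Finset.sum_congr rfl
  intro i _
  exact central_of_even (hc _) _

lemma IsOd.anti {f g : (PowerSeries (ExteriorAlgebra F W))} (hf : IsOd f) (hg : IsOd g) : f * g = - (g * f) := by
  ext n
  rw [map_neg, PowerSeries.coeff_mul, PowerSeries.coeff_mul,
    ← Finset.Nat.sum_antidiagonal_swap, ← Finset.sum_neg_distrib]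
  apply Finset.sum_congr rfl
  intro i _
  change PowerSeries.coeff i.2 f * PowerSeries.coeff i.1 g = _
  rw [mul_of_odd (hf _), hg, neg_mul]

lemma IsEv.mul {f g : (PowerSeries (ExteriorAlgebra F W))} (hf : IsEv f) (hg : IsEv g) : IsEv (f * g) := by
  intro n
  rw [PowerSeries.coeff_mul, map_sum]
  exact Finset.sum_congr rfl fun i _ => by rw [map_mul, hf, hg]
lemma IsEv.mul_od {f g : (PowerSeries (ExteriorAlgebra F W))} (hf : IsEv f) (hg : IsOd g) : IsOd (f * g) := by
  intro n
  rw [PowerSeries.coeff_mul, map_sum, ← Finset.sum_neg_distrib]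
  exact Finset.sum_congr rfl fun i _ => by rw [map_mul, hf, hg, mul_neg]
lemma IsOd.mul_ev {f g : (PowerSeries (ExteriorAlgebra F W))} (hf : IsOd f) (hg : IsEv g) : IsOd (f * g) := by
  intro n
  rw [PowerSeries.coeff_mul, map_sum, ← Finset.sum_neg_distrib]
  exact Finset.sum_congr rfl fun i _ => by rw [map_mul, hf, hg, neg_mul]
lemma IsOd.mul {f g : (PowerSeries (ExteriorAlgebra F W))} (hf : IsOd f) (hg : IsOd g) : IsEv (f * g) := by
  intro n
  rw [PowerSeries.coeff_mul, map_sum]
  exact Finset.sum_congr rfl fun i _ => by rw [map_mul, hf, hg, neg_mul_neg]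
lemma IsEv.add {f g : (PowerSeries (ExteriorAlgebra F W))} (hf : IsEv f) (hg : IsEv g) : IsEv (f + g) := by
  intro n; rw [map_add, map_add, hf, hg]
lemma IsEv.sub {f g : (PowerSeries (ExteriorAlgebra F W))} (hf : IsEv f) (hg : IsEv g) : IsEv (f - g) := by
  intro n; rw [map_sub, map_sub, hf, hg]
lemma IsOd.add {f g : (PowerSeries (ExteriorAlgebra F W))} (hf : IsOd f) (hg : IsOd g) : IsOd (f + g) := by
  intro n; rw [map_add, map_add, hf, hg]; abel

/-- even part -/
noncomputable def eR : (PowerSeries (ExteriorAlgebra F W)) →ₗ[F] (PowerSeries (ExteriorAlgebra F W)) where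
  toFun f := PowerSeries.mk fun n => ev (PowerSeries.coeff n f)
  map_add' f g := by ext n; simp
  map_smul' r f := by ext n; simp
/-- odd part -/
noncomputable def oR : (PowerSeries (ExteriorAlgebra F W)) →ₗ[F] (PowerSeries (ExteriorAlgebra F W)) where
  toFun f := PowerSeries.mk fun n => od (PowerSeries.coeff n f)
  map_add' f g := by ext n; simp
  map_smul' r f := by ext n; simp
/-- the Euler derivation -/
noncomputable def DR : (PowerSeries (ExteriorAlgebra F W)) →ₗ[F] (PowerSeries (ExteriorAlgebra F W)) where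
  toFun f := PowerSeries.mk fun n => (n : F) • (PowerSeries.coeff n f)
  map_add' f g := by ext n; simp
  map_smul' r f := by
    ext n
    rw [PowerSeries.coeff_mk, RingHom.id_apply, PowerSeries.coeff_smul, PowerSeries.coeff_smul,
      PowerSeries.coeff_mk, smul_comm]

@[simp] lemma coeff_eR (n : ℕ) (f : (PowerSeries (ExteriorAlgebra F W))) :
    PowerSeries.coeff n (eR f) = ev (PowerSeries.coeff n f) := by
  change PowerSeries.coeff n (PowerSeries.mk fun n => ev (PowerSeries.coeff n f) : (PowerSeries (ExteriorAlgebra F W))) = _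
  rw [PowerSeries.coeff_mk]
@[simp] lemma coeff_oR (n : ℕ) (f : (PowerSeries (ExteriorAlgebra F W))) :
    PowerSeries.coeff n (oR f) = od (PowerSeries.coeff n f) := by
  change PowerSeries.coeff n (PowerSeries.mk fun n => od (PowerSeries.coeff n f) : (PowerSeries (ExteriorAlgebra F W))) = _
  rw [PowerSeries.coeff_mk]
@[simp] lemma coeff_DR (n : ℕ) (f : (PowerSeries (ExteriorAlgebra F W))) :
    PowerSeries.coeff n (DR f) = (n : F) • (PowerSeries.coeff n f) := by
  change PowerSeries.coeff n
    (PowerSeries.mk fun n => (n : F) • (PowerSeries.coeff n f) : (PowerSeries (ExteriorAlgebra F W))) = _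
  rw [PowerSeries.coeff_mk]

lemma isEv_eR (f : (PowerSeries (ExteriorAlgebra F W))) : IsEv (eR f) := fun n => by rw [coeff_eR, sg_ev]
lemma isOd_oR (f : (PowerSeries (ExteriorAlgebra F W))) : IsOd (oR f) := fun n => by rw [coeff_oR, sg_od]
lemma IsEv.DR {f : (PowerSeries (ExteriorAlgebra F W))} (hf : IsEv f) : IsEv (DR f) := fun n => by rw [coeff_DR, map_smul, hf]
lemma IsOd.DR {f : (PowerSeries (ExteriorAlgebra F W))} (hf : IsOd f) : IsOd (DR f) := fun n => by
  rw [coeff_DR, map_smul, hf, smul_neg]

lemma DR_mul (f g : (PowerSeries (ExteriorAlgebra F W))) : DR (f * g) = DR f * g + f * DR g := by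
  ext n
  rw [map_add, coeff_DR, PowerSeries.coeff_mul, PowerSeries.coeff_mul, PowerSeries.coeff_mul,
    Finset.smul_sum, ← Finset.sum_add_distrib]
  apply Finset.sum_congr rfl
  intro i hi
  have : i.1 + i.2 = n := Finset.HasAntidiagonal.mem_antidiagonal.1 hi
  rw [coeff_DR, coeff_DR, ← this, Nat.cast_add, add_smul, smul_mul_assoc, mul_smul_comm]

/-- the Jordan product of vector type -/
noncomputable def jp (f g : (PowerSeries (ExteriorAlgebra F W))) : (PowerSeries (ExteriorAlgebra F W)) :=
  jpA (fun x => eR x) (fun x => oR x) (fun x => DR x) f g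

lemma jp_def (f g : (PowerSeries (ExteriorAlgebra F W))) : jp f g =
  eR f * eR g + eR f * oR g + oR f * eR g + (DR (oR f) * oR g - oR f * DR (oR g)) := rfl

lemma coeff_jp (n : ℕ) (f g : (PowerSeries (ExteriorAlgebra F W))) : PowerSeries.coeff n (jp f g)
    = ∑ i ∈ Finset.HasAntidiagonal.antidiagonal n,
      star (i.1 : F) (i.2 : F) (PowerSeries.coeff i.1 f) (PowerSeries.coeff i.2 g) := by
  rw [jp_def]
  unfold star
  rw [map_add, map_add, map_add, map_sub]
  simp only [PowerSeries.coeff_mul, coeff_eR, coeff_oR, coeff_DR, Finset.sum_add_distrib]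
  congr 1
  rw [← Finset.sum_sub_distrib]
  apply Finset.sum_congr rfl
  intro i _
  rw [smul_mul_assoc, mul_smul_comm, ← sub_smul]

lemma jp_comm (f g : (PowerSeries (ExteriorAlgebra F W))) : jp f g = jp g f := by
  ext n
  rw [coeff_jp, coeff_jp, ← Finset.Nat.sum_antidiagonal_swap]
  apply Finset.sum_congr rfl
  intro i _
  exact star_comm _ _ _ _

lemma jp_add_left (f f' g : (PowerSeries (ExteriorAlgebra F W))) : jp (f + f') g = jp f g + jp f' g := by
  simp only [jp_def]; simp only [map_add, add_mul]; abel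
lemma jp_add_right (f g g' : (PowerSeries (ExteriorAlgebra F W))) : jp f (g + g') = jp f g + jp f g' := by
  simp only [jp_def]; simp only [map_add, mul_add]; abel
lemma jp_smul_left (r : F) (f g : (PowerSeries (ExteriorAlgebra F W))) : jp (r • f) g = r • jp f g := by
  simp only [jp_def]; simp only [map_smul, smul_mul_assoc, smul_add, smul_sub]
lemma jp_smul_right (r : F) (f g : (PowerSeries (ExteriorAlgebra F W))) : jp f (r • g) = r • jp f g := by
  simp only [jp_def]; simp only [map_smul, mul_smul_comm, smul_add, smul_sub]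
lemma jp_zero_left (g : (PowerSeries (ExteriorAlgebra F W))) : jp (0 : (PowerSeries (ExteriorAlgebra F W))) g = 0 := by rw [jp_def]; simp
lemma jp_zero_right (g : (PowerSeries (ExteriorAlgebra F W))) : jp g (0 : (PowerSeries (ExteriorAlgebra F W))) = 0 := by rw [jp_def]; simp

variable (h2 : (2 : F) ≠ 0)

include h2 in
lemma eR_add_oR (f : (PowerSeries (ExteriorAlgebra F W))) : eR f + oR f = f := by
  ext n; simp [ev_add_od h2]

include h2 in
lemma IsEv.eR {f : (PowerSeries (ExteriorAlgebra F W))} (hf : IsEv f) : eR f = f := by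
  ext n; rw [coeff_eR, ev_of_even h2 (hf n)]
lemma IsEv.oR {f : (PowerSeries (ExteriorAlgebra F W))} (hf : IsEv f) : oR f = 0 := by
  ext n; rw [coeff_oR, od_of_even (hf n), map_zero]
include h2 in
lemma IsOd.oR {f : (PowerSeries (ExteriorAlgebra F W))} (hf : IsOd f) : oR f = f := by
  ext n; rw [coeff_oR, od_of_odd h2 (hf n)]
lemma IsOd.eR {f : (PowerSeries (ExteriorAlgebra F W))} (hf : IsOd f) : eR f = 0 := by
  ext n; rw [coeff_eR, ev_of_odd (hf n), map_zero]

include h2 in
lemma IsOd.sq {f : (PowerSeries (ExteriorAlgebra F W))} (hf : IsOd f) : f * f = 0 := by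
  have h := hf.anti hf
  ext n
  rw [map_zero]
  apply self_neg_zero h2
  have := congrArg (PowerSeries.coeff n) h
  rwa [map_neg] at this

include h2 in
lemma eR_jp (f g : (PowerSeries (ExteriorAlgebra F W))) : eR (jp f g) = eR f * eR g + (DR (oR f) * oR g - oR f * DR (oR g)) := by
  rw [jp_def]
  have e1 := (isEv_eR f).mul (isEv_eR g)
  have e2 := (isEv_eR f).mul_od (isOd_oR g)
  have e3 := (isOd_oR f).mul_ev (isEv_eR g)
  have e4 := ((isOd_oR f).DR.mul (isOd_oR g)).sub ((isOd_oR f).mul (isOd_oR g).DR)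
  rw [map_add, map_add, map_add, e1.eR h2, e2.eR, e3.eR, e4.eR h2]
  abel

include h2 in
lemma oR_jp (f g : (PowerSeries (ExteriorAlgebra F W))) : oR (jp f g) = eR f * oR g + oR f * eR g := by
  rw [jp_def]
  have e1 := (isEv_eR f).mul (isEv_eR g)
  have e2 := (isEv_eR f).mul_od (isOd_oR g)
  have e3 := (isOd_oR f).mul_ev (isEv_eR g)
  have e4 := ((isOd_oR f).DR.mul (isOd_oR g)).sub ((isOd_oR f).mul (isOd_oR g).DR)
  rw [map_add, map_add, map_add, e1.oR, e2.oR h2, e3.oR h2, e4.oR]
  abel

include h2 in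
theorem jp_jordan (f g : (PowerSeries (ExteriorAlgebra F W))) : jp (jp (jp f f) g) f = jp (jp f f) (jp g f) := by
  have h := jordan_abs (fun x : PowerSeries (ExteriorAlgebra F W) => eR x) (fun x => oR x) (fun x => DR x)
    (fun f g => map_add DR f g) (fun f g => map_sub DR f g) DR_mul (eR_add_oR h2)
    (eR_jp h2) (oR_jp h2) IsOd (fun f u => (isEv_eR f).central u)
    (fun f u => (isEv_eR f).DR.central u) isOd_oR (fun f hf => hf.DR)
    (fun u v hu hv => hu.anti hv) (fun u hu => hu.sq h2) f g
  exact h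

end

end N865.JP
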